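import Pool.Agent.Y757.GM.Fin

set_option autoImplicit false

/-! Plain forms. -/

namespace Pool.Agent.Y757.GM

open MeasureTheory Set Filter Topology Pool.Agent.Y757.LS Pool.Agent.Y757.EM Real ZU
open scoped ENNReal

noncomputable section

lemma U_eq {p : ℕ} (hp : 2 ≤ p) (x y θ : ℝ) :
    -Real.log ‖1 - (p : ℂ) ^ (-(1 / 2 + x + y * Complex.I) : ℂ) * Complex.exp (-(2 * Real.pi * θ) * Complex.I)‖ =
      ps p x (θ + y * (Real.log p / (2 * Real.pi))) := by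
  have hp0 : (p : ℂ) ≠ 0 := by exact_mod_cast (by omega : p ≠ 0)
  have hp1 : (0:ℝ) < p := by exact_mod_cast (by omega : 0 < p)
  have hpi : 2 * Real.pi * (θ + y * (Real.log p / (2 * Real.pi))) = 2 * Real.pi * θ + y * Real.log p := by
    have := Real.pi_pos.ne'
    field_simp
  have e : (p : ℂ) ^ (-(1 / 2 + x + y * Complex.I) : ℂ) * Complex.exp (-(2 * Real.pi * θ) * Complex.I) =
      (((p : ℝ) ^ (-(1 / 2 + x)) : ℝ) : ℂ) *
      Complex.exp (((-(2 * Real.pi * (θ + y * (Real.log p / (2 * Real.pi)))) : ℝ) : ℂ) * Complex.I) := by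
    rw [hpi, Complex.cpow_def_of_ne_zero hp0, Real.rpow_def_of_pos hp1,
      Complex.ofReal_exp, ← Complex.exp_add, ← Complex.exp_add, ← Complex.natCast_log]
    congr 1
    push_cast
    ring
  unfold ps
  rw [e]

lemma U_eq0 {p : ℕ} (hp : 2 ≤ p) (x θ : ℝ) :
    -Real.log ‖1 - (p : ℂ) ^ (-(1 / 2 + x + (0:ℝ) * Complex.I) : ℂ) * Complex.exp (-(2 * Real.pi * θ) * Complex.I)‖ =
      ps p x θ := by
  rw [U_eq hp, zero_mul, add_zero]

/-- the class of weights -/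
lemma wt_of_weight {ω : Measure (ℝ × ℝ)} {W R : ℝ} (h1 : ∀ᵐ q ∂ω, 0 ≤ q.1 ∧ q.1 ≤ R ∧ |q.2| ≤ 1)
    (h2 : ω.map Prod.fst ≤ ENNReal.ofReal W • (volume : Measure ℝ)) : Wt ω (max W 0) (max R 0) := by
  have h0 : ENNReal.ofReal (max W 0) = ENNReal.ofReal W := by
    rcases le_total W 0 with h | h
    · rw [max_eq_right h, ENNReal.ofReal_zero, ENNReal.ofReal_of_nonpos h]
    · rw [max_eq_left h]
  refine ⟨le_max_right _ _, le_max_right _ _, ?_, by rwa [h0]⟩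
  have h3 : ∀ᵐ q ∂ω, q.1 ≠ 0 := by
    have h4 : (ω.map Prod.fst) {0} = 0 := by
      refine le_antisymm ((h2 _).trans ?_) bot_le
      rw [Measure.smul_apply, Real.volume_singleton, smul_zero]
    rw [Measure.map_apply measurable_fst (measurableSet_singleton _)] at h4
    have e : {q : ℝ × ℝ | ¬ q.1 ≠ 0} = Prod.fst ⁻¹' {0} := by
      ext q; simp
    rw [ae_iff, e]
    exact h4
  filter_upwards [h1, h3] with q hq hq2
  exact ⟨lt_of_le_of_ne hq.1 (Ne.symm hq2), hq.2.1.trans (le_max_left _ _), hq.2.2⟩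

lemma weight_of_wt {ω : Measure (ℝ × ℝ)} {W R : ℝ} (h : Wt ω W R) :
    (∀ᵐ q ∂ω, 0 ≤ q.1 ∧ q.1 ≤ R ∧ |q.2| ≤ 1) ∧ ω.map Prod.fst ≤ ENNReal.ofReal W • (volume : Measure ℝ) :=
  ⟨h.supp.mono fun q hq => ⟨hq.1.le, hq.2⟩, h.dens⟩

lemma hd_Jw {r : ℝ} (t : ℝ) : Jw (hd r) t = 2 / (Real.pi * r ^ 2) * ∫ q in HD r, lz q.1 (t + q.2) := by
  unfold Jw hd
  rw [smul_int]
  positivity

/-- the segments -/
theorem seg_form (I : Ing) {k : ℕ} (hk : 1 ≤ k) (hm : HypK k) {l h : ℝ} (hl : 0 < l) (hh : 0 < h)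
    (hc : h ≤ 1 / 2 ∧ l * (1 - h) < 2 * k ∨ l < 8 * k * h) : Form (seg l h) := by
  refine form_of_mom I hk hm (seg_wt hl.le hh) ?_
  rcases hc with ⟨h1, h2⟩ | h1
  · rwa [seg_kap hl.le hh h1]
  · refine (seg_kap_le hl.le hh).trans_lt ?_
    rw [div_lt_iff₀ (by positivity)]
    linarith

end

end Pool.Agent.Y757.GM
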