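import Pool.Agent.Y757.GM.Stm
import Pool.Agent.Y757.EM.Fin

set_option autoImplicit false

/-! From the half discs to the moments. -/

namespace Pool.Agent.Y757.GM

open MeasureTheory Set Filter Topology Pool.Agent.Y757.LS Pool.Agent.Y757.EM Real ZU
open scoped ENNReal

noncomputable section

lemma pt_zero (t : ℝ) : pt 0 t = 1 / 2 + t * Complex.I := by unfold pt; push_cast; ring

lemma zeta_crude : ∃ C : ℝ, 0 < C ∧ ∀ t : ℝ, 3 ≤ t → ‖riemannZeta (pt 0 t)‖ ≤ C * t ^ (4:ℝ) := by
  obtain ⟨C, hC, h⟩ := vv_upper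
  refine ⟨5 * (Real.exp C * 2 ^ (4:ℝ)), by positivity, fun t ht => ?_⟩
  have ht0 : 0 < t := by linarith
  have h1 := h 0 t (by norm_num) (by norm_num)
  have hne := pt_ne_one (s := 0) (t := t) (by rw [abs_of_pos ht0]; linarith)
  have h2 : ‖GG (pt 0 t)‖ ≤ Real.exp C * (2 * t) ^ (4:ℝ) := by
    have h3 : ‖GG (pt 0 t)‖ ≤ Real.exp (vv 0 t) := by
      unfold vv
      have hx := norm_nonneg (GG (pt 0 t))
      rcases le_total ‖GG (pt 0 t)‖ 1 with h | h
      · rw [(Real.posLog_eq_zero_iff _).2 (by rwa [abs_of_nonneg hx]), Real.exp_zero]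
        exact h
      · rw [Real.posLog_eq_log (by rwa [abs_of_nonneg hx]), Real.exp_log (by linarith)]
    refine h3.trans ((Real.exp_le_exp.2 h1).trans ?_)
    rw [Real.exp_add, abs_of_pos ht0, Real.rpow_def_of_pos (by positivity)]
    have h4 : Real.log (1 + t) ≤ Real.log (2 * t) := Real.log_le_log (by linarith) (by linarith)
    have h8 : 4 * Real.log (1 + t) ≤ Real.log (2 * t) * 4 := by linarith
    gcongr
  have h5 := ratio_ge (s := pt 0 t) (by rw [pt_re]; norm_num) (η := 1) (by norm_num) (by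
    refine (by linarith : (1:ℝ) ≤ t).trans ((le_of_eq ?_).trans (Complex.abs_im_le_norm _))
    rw [Complex.sub_im, pt_im, Complex.one_im, sub_zero, abs_of_pos ht0])
  rw [GG_of_ne hne, norm_mul] at h2
  have h6 : (1:ℝ) / 5 ≤ ‖(pt 0 t - 1) / (pt 0 t + 3)‖ := by
    refine le_trans (le_of_eq ?_) h5
    norm_num
  have h7 : 1 / 5 * ‖riemannZeta (pt 0 t)‖ ≤ Real.exp C * (2 * t) ^ (4:ℝ) :=
    (mul_le_mul_of_nonneg_right h6 (norm_nonneg _)).trans h2
  rw [Real.mul_rpow (by norm_num) ht0.le] at h7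
  linarith

theorem t_cr : S_cr := by
  intro hpw k hk hb ε hε
  have hk1 : (1:ℝ) ≤ k := by exact_mod_cast hk
  obtain ⟨C1, hC1, hcr⟩ := zeta_crude
  set δ : ℝ := min 1 (ε / 16) with hδ
  have hδ0 : 0 < δ := lt_min one_pos (by positivity)
  have hδ1 : δ ≤ 1 := min_le_left _ _
  have hδ2 : δ ≤ ε / 16 := min_le_right _ _
  set r : ℝ := min 1 (ε / (8 * k)) with hr
  have hr0 : 0 < r := lt_min one_pos (by positivity)
  have hr1 : r ≤ 1 := min_le_left _ _
  have hr2 : r ≤ ε / (8 * k) := min_le_right _ _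
  set l : ℝ := 2 * k - δ with hl
  have hl0 : 0 < l := by rw [hl]; linarith
  have hlk : l < 2 * k := by rw [hl]; linarith
  obtain ⟨C2, hC2, hp⟩ := hpw r hr0 hr1
  obtain ⟨A, hA⟩ := hb l r (ε / 2) hl0 hlk hr0 hr1 (by positivity)
  have hexp : r * l + 4 * δ ≤ ε / 2 := by
    have h1 : r * l ≤ ε / (8 * k) * (2 * k) := by gcongr
    have h2 : ε / (8 * k) * (2 * k) = ε / 4 := by field_simp; ring
    linarith
  set D : ℝ := C2 ^ l * C1 ^ δ with hD
  have hD0 : 0 ≤ D := by positivity
  have hpt : ∀ t : ℝ, 3 ≤ t → ‖riemannZeta (pt 0 t)‖ ^ (2 * k) ≤ D * t ^ (ε / 2) * Real.exp (l * Jw (hd r) t) := by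
    intro t ht
    have ht0 : 0 < t := by linarith
    set z := ‖riemannZeta (pt 0 t)‖ with hz
    have hz0 : 0 ≤ z := norm_nonneg _
    have e : z ^ (2 * k) = z ^ l * z ^ δ := by
      rw [← Real.rpow_natCast, ← Real.rpow_add_of_nonneg hz0 hl0.le hδ0.le]
      congr 1
      rw [hl]; push_cast; ring
    rw [e]
    calc z ^ l * z ^ δ ≤ (C2 * t ^ r * Real.exp (Jw (hd r) t)) ^ l * (C1 * t ^ (4:ℝ)) ^ δ := by
          gcongr
          · exact hp t ht
          · exact hcr t ht
      _ = D * t ^ (r * l + 4 * δ) * Real.exp (l * Jw (hd r) t) := by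
          rw [Real.mul_rpow (by positivity) (Real.exp_pos _).le, Real.mul_rpow hC2.le (by positivity),
            Real.mul_rpow hC1.le (by positivity), ← Real.rpow_mul ht0.le, ← Real.rpow_mul ht0.le,
            ← Real.exp_mul, Real.rpow_add ht0, mul_comm (Jw (hd r) t) l, hD]
          ring
      _ ≤ _ := by
          have : t ^ (r * l + 4 * δ) ≤ t ^ (ε / 2) := Real.rpow_le_rpow_of_exponent_le (by linarith) hexp
          gcongr
  have hcont : Continuous (fun t : ℝ => ‖riemannZeta (1 / 2 + t * Complex.I)‖ ^ (2 * k)) := by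
    have h1 : Continuous (fun t : ℝ => ‖riemannZeta (pt 0 t)‖ ^ (2 * k)) :=
      (zeta_pt_cont 0 (by norm_num)).norm.pow (2 * k)
    simpa only [pt_zero] using h1
  set B : ℝ := ∫ t in (1:ℝ)..3, ‖riemannZeta (1 / 2 + t * Complex.I)‖ ^ (2 * k) with hB
  have hB0 : 0 ≤ B := intervalIntegral.integral_nonneg (by norm_num) fun t _ => by positivity
  refine ⟨B + D * |A|, fun T hT => ?_⟩
  have hT0 : 0 < T := by linarith
  have hT1 : 1 ≤ T ^ (1 + ε) := Real.one_le_rpow hT (by linarith)
  have hDA : 0 ≤ D * |A| := by positivity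
  rcases le_total T 3 with h3 | h3
  · have h1 : ∫ t in (1:ℝ)..T, ‖riemannZeta (1 / 2 + t * Complex.I)‖ ^ (2 * k) ≤ B :=
      intervalIntegral.integral_mono_interval le_rfl hT h3
        (Eventually.of_forall fun t => by positivity) (hcont.intervalIntegrable _ _)
    nlinarith
  · have hsp : ∫ t in (1:ℝ)..T, ‖riemannZeta (1 / 2 + t * Complex.I)‖ ^ (2 * k) = B +
        ∫ t in (3:ℝ)..T, ‖riemannZeta (1 / 2 + t * Complex.I)‖ ^ (2 * k) :=
      (intervalIntegral.integral_add_adjacent_intervals (hcont.intervalIntegrable _ _)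
        (hcont.intervalIntegrable _ _)).symm
    have hmain : ∫ t in (3:ℝ)..T, ‖riemannZeta (1 / 2 + t * Complex.I)‖ ^ (2 * k) ≤ D * |A| * T ^ (1 + ε) := by
      rw [intervalIntegral.integral_of_le h3]
      have hi : IntegrableOn (fun t : ℝ => ‖riemannZeta (1 / 2 + t * Complex.I)‖ ^ (2 * k)) (Ioc 3 T) :=
        hcont.integrableOn_Ioc
      rw [← ENNReal.ofReal_le_ofReal_iff (by positivity),
        ofReal_integral_eq_lintegral_ofReal hi (Eventually.of_forall fun t => by positivity)]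
      calc ∫⁻ t in Ioc 3 T, ENNReal.ofReal (‖riemannZeta (1 / 2 + t * Complex.I)‖ ^ (2 * k))
          ≤ ∫⁻ t in Ioc 3 T, ENNReal.ofReal (D * T ^ (ε / 2)) * ENNReal.ofReal (Real.exp (l * Jw (hd r) t)) := by
            refine setLIntegral_mono' measurableSet_Ioc fun t ht => ?_
            rw [← ENNReal.ofReal_mul (by positivity)]
            apply ENNReal.ofReal_le_ofReal
            have h1 := hpt t ht.1.le
            rw [pt_zero] at h1
            refine h1.trans ?_
            have ht0 : 0 < t := by linarith [ht.1]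
            have : t ^ (ε / 2) ≤ T ^ (ε / 2) := Real.rpow_le_rpow ht0.le ht.2 (by positivity)
            gcongr
        _ = ENNReal.ofReal (D * T ^ (ε / 2)) * ∫⁻ t in Ioc 3 T, ENNReal.ofReal (Real.exp (l * Jw (hd r) t)) :=
            lintegral_const_mul' _ _ ENNReal.ofReal_ne_top
        _ ≤ ENNReal.ofReal (D * T ^ (ε / 2)) * ENNReal.ofReal (|A| * T ^ (1 + ε / 2)) := by
            gcongr
            refine (lintegral_mono_set (t := Icc 2 T) ?_).trans ((hA T (by linarith)).trans ?_)
            · intro t ht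
              exact ⟨by linarith [ht.1], ht.2⟩
            · apply ENNReal.ofReal_le_ofReal
              gcongr
              exact le_abs_self A
        _ = _ := by
            rw [← ENNReal.ofReal_mul (by positivity)]
            congr 1
            have : T ^ (1 + ε) = T ^ (ε / 2) * T ^ (1 + ε / 2) := by
              rw [← Real.rpow_add hT0]; congr 1; ring
            rw [this]; ring
    rw [hsp]
    have : B * 1 ≤ B * T ^ (1 + ε) := by gcongr
    linarith

end

end Pool.Agent.Y757.GM
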