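import Pool.Agent.Y757.EM.Main

set_option autoImplicit false

/-! Geometric means of zeta: definitions and statements. -/

namespace Pool.Agent.Y757.GM

open MeasureTheory Set Filter Topology Pool.Agent.Y757.LS Pool.Agent.Y757.EM ZU
open scoped ENNReal

noncomputable section

/-- admissible weights: supported in `0 < x ≤ R`, `|y| ≤ 1`, with image on the `x`-axis of density at most `W` -/
structure Wt (ω : Measure (ℝ × ℝ)) (W R : ℝ) : Prop where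
  W0 : 0 ≤ W
  R0 : 0 ≤ R
  supp : ∀ᵐ q ∂ω, 0 < q.1 ∧ q.1 ≤ R ∧ |q.2| ≤ 1
  dens : ω.map Prod.fst ≤ ENNReal.ofReal W • (volume : Measure ℝ)

/-- `κ(ω) = ∫ max(0, 1 - 2x) dω` -/
def kap (ω : Measure (ℝ × ℝ)) : ℝ := ∫ q, max 0 (1 - 2 * q.1) ∂ω

/-- `J_ω(t) = ∫ log |ζ(1/2 + x + i (t + y))| dω(x, y)`; here `lz s t = log |ζ(1/2 + s + it)|` -/
def Jw (ω : Measure (ℝ × ℝ)) (t : ℝ) : ℝ := ∫ q, lz q.1 (t + q.2) ∂ω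

/-- `-log |1 - p^{-1/2 - x} e^{-2πiθ}|` -/
def ps (p : ℕ) (x θ : ℝ) : ℝ :=
  -Real.log ‖1 - (((p : ℝ) ^ (-(1 / 2 + x)) : ℝ) : ℂ) * Complex.exp (((-(2 * Real.pi * θ) : ℝ) : ℂ) * Complex.I)‖

/-- the local variable -/
def Lw (ω : Measure (ℝ × ℝ)) (p : ℕ) (θ : ℝ) : ℝ :=
  ∫ q, ps p q.1 (θ + q.2 * (Real.log p / (2 * Real.pi))) ∂ω

/-- the sum over the primes up to `N`; here `pr N` is the set of the primes up to `N` -/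
def Xw (ω : Measure (ℝ × ℝ)) (N : ℕ) (t : ℝ) : ℝ :=
  ∑ p ∈ pr N, Lw ω p (t * (Real.log p / (2 * Real.pi)))

/-- the local factor -/
def facw (ω : Measure (ℝ × ℝ)) (p : ℕ) : ℝ := ∫ θ in (0:ℝ)..1, Real.exp (Lw ω p θ)

/-- the Euler product -/
def Cw (ω : Measure (ℝ × ℝ)) : ℝ := ∏' p : Nat.Primes, facw ω p

lemma psi_eq_ps {p : ℕ} (hp : 2 ≤ p) (s t : ℝ) : psi p s t = ps p s (t * (Real.log p / (2 * Real.pi))) := by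
  have hp0 : (p : ℂ) ≠ 0 := by exact_mod_cast (by omega : p ≠ 0)
  have hp1 : (0:ℝ) < p := by exact_mod_cast (by omega : 0 < p)
  have e : (p : ℂ) ^ (-pt s t) = (((p : ℝ) ^ (-(1 / 2 + s)) : ℝ) : ℂ) *
      Complex.exp (((-(2 * Real.pi * (t * (Real.log p / (2 * Real.pi)))) : ℝ) : ℂ) * Complex.I) := by
    have hpi : 2 * Real.pi * (t * (Real.log p / (2 * Real.pi))) = t * Real.log p := by
      have := Real.pi_pos.ne'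
      field_simp
    rw [hpi, Complex.cpow_def_of_ne_zero hp0, Real.rpow_def_of_pos hp1,
      Complex.ofReal_exp, ← Complex.exp_add, ← Complex.natCast_log]
    congr 1
    unfold pt
    push_cast
    ring
  unfold psi ps
  rw [e]

lemma ps_eq_psi {p : ℕ} (hp : 2 ≤ p) (s θ : ℝ) : ps p s θ = psi p s (θ * (2 * Real.pi / Real.log p)) := by
  rw [psi_eq_ps hp]
  congr 1
  have h1 := Real.pi_pos.ne'
  have h2 := log_p_pos hp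
  have h3 : Real.log p ≠ 0 := by linarith
  field_simp

lemma ps_bound {p : ℕ} (hp : 2 ≤ p) {x : ℝ} (hx : 0 ≤ x) (θ : ℝ) : |ps p x θ| ≤ 4 * rp p x := by
  rw [ps_eq_psi hp]
  exact psi_bound hp hx _

/-- closeness of `log |ζ|` and of the sums over primes, in mean, over the half plane -/
def S_clo : Prop := ∀ ε : ℝ, 0 < ε → ∃ N₀ : ℕ, ∀ N : ℕ, N₀ ≤ N → ∃ T₀ : ℝ, 1 ≤ T₀ ∧ ∀ T : ℝ, T₀ ≤ T →
  ∫⁻ t in Icc 1 T, ∫⁻ s in Ioi (0:ℝ), ‖Xi N s t‖ₑ ≤ ENNReal.ofReal (ε * T)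

/-- the random model -/
def S_eul : Prop := ∀ (ω : Measure (ℝ × ℝ)) (W R : ℝ), Wt ω W R →
  (∀ N : ℕ, Continuous (Xw ω N)) ∧ (∀ N : ℕ, ∃ B : ℝ, ∀ t : ℝ, |Xw ω N t| ≤ B) ∧
  (∀ N : ℕ, Tendsto (fun T : ℝ => 1 / T * ∫ t in (1:ℝ)..T, Real.exp (Xw ω N t)) atTop
    (𝓝 (∏ p ∈ pr N, facw ω p))) ∧
  Multipliable (fun p : Nat.Primes => facw ω p) ∧
  Tendsto (fun N : ℕ => ∏ p ∈ pr N, facw ω p) atTop (𝓝 (Cw ω))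

/-- bounded exponential moments; here `vv s t = log⁺ |GG (1/2 + s + it)|` -/
def S_U : Prop := ∀ k : ℕ, 1 ≤ k → HypK k → ∀ (ω : Measure (ℝ × ℝ)) (W R : ℝ), Wt ω W R →
  kap ω < 2 * k → ∃ A : ℝ, 0 ≤ A ∧
    PB 0 (fun t => ENNReal.ofReal (Real.exp (∫ q, vv q.1 (t + q.2) ∂ω))) A 1

/-- upper bound of `J_ω` -/
def S_up : Prop := ∀ (ω : Measure (ℝ × ℝ)) (W R : ℝ), Wt ω W R →
  Measurable (Jw ω) ∧
  (∃ C : ℝ, ∀ t : ℝ, 2 ≤ t → Jw ω t ≤ (∫ q, vv q.1 (t + q.2) ∂ω) + C) ∧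
  (∃ C : ℝ, ∀ t : ℝ, 2 ≤ t → Jw ω t ≤ C + C * Real.log t)

/-! ### the constants -/

/-- the local factor of the geometric means over `[1/2, 1/2 + h]` -/
def Fp (k p : ℕ) (h : ℝ) : ℝ := ∫ θ in (0:ℝ)..1, Real.exp (2 * k / h * ∫ s in (0:ℝ)..h, ps p s θ)

/-- mean value of `-log (1 - p^{-1-x-y})` over the square -/
def Gp (p : ℕ) (h : ℝ) : ℝ :=
  1 / h ^ 2 * ∫ x in (0:ℝ)..h, ∫ y in (0:ℝ)..h, -Real.log (1 - (p : ℝ) ^ (-(1 + x + y)))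

/-- mean value of `log ζ(1+x+y)` over the square -/
def Zh (h : ℝ) : ℝ :=
  1 / h ^ 2 * ∫ x in (0:ℝ)..h, ∫ y in (0:ℝ)..h, Real.log ‖riemannZeta (1 + x + y)‖

/-- the local factor of the arithmetic constant -/
def Bp (k p : ℕ) : ℝ := (1 - 1 / (p : ℝ)) ^ (k ^ 2) * ∑' m : ℕ, ((m + k - 1).choose m : ℝ) ^ 2 / (p : ℝ) ^ m

def S_FB : Prop := ∀ k : ℕ, 1 ≤ k → ∃ C : ℝ, ∀ p : ℕ, p.Prime → ∀ h : ℝ, 0 < h → h ≤ 1 →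
  |Fp k p h * Real.exp (-(k : ℝ) ^ 2 * Gp p h) - 1| ≤ C * (p : ℝ) ^ (-(3 / 2) : ℝ)

def S_FL : Prop := ∀ k : ℕ, 1 ≤ k → ∀ p : ℕ, p.Prime →
  Tendsto (fun h : ℝ => Fp k p h * Real.exp (-(k : ℝ) ^ 2 * Gp p h)) (𝓝[>] 0) (𝓝 (Bp k p))

def S_GZ : Prop := ∀ h : ℝ, 0 < h → h ≤ 1 → HasSum (fun p : Nat.Primes => Gp p h) (Zh h)

def S_ZL : Prop := Tendsto (fun h : ℝ => Zh h + Real.log (4 * h) - 3 / 2) (𝓝[>] 0) (𝓝 0)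

def S_CST : Prop := ∀ k : ℕ, 1 ≤ k →
  (Multipliable fun p : Nat.Primes => Bp k p) ∧
  Tendsto (fun h : ℝ => (4 * h * Real.exp (-(3 / 2))) ^ (k ^ 2) * ∏' p : Nat.Primes, Fp k p h) (𝓝[>] 0)
    (𝓝 (∏' p : Nat.Primes, Bp k p))

/-! ### the criterion -/

/-- the right half disc -/
def HD (r : ℝ) : Set (ℝ × ℝ) := {q | 0 < q.1 ∧ q.1 ^ 2 + q.2 ^ 2 ≤ r ^ 2}

/-- the uniform probability measure on the half disc -/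
def hd (r : ℝ) : Measure (ℝ × ℝ) := ENNReal.ofReal (2 / (Real.pi * r ^ 2)) • volume.restrict (HD r)

def S_hd : Prop := ∀ r : ℝ, 0 < r → r ≤ 1 → Wt (hd r) (4 / (Real.pi * r)) r ∧ hd r univ = 1

/-- the value at the centre -/
def S_pw : Prop := ∀ r : ℝ, 0 < r → r ≤ 1 → ∃ C : ℝ, 0 < C ∧ ∀ t : ℝ, 3 ≤ t →
  ‖riemannZeta (pt 0 t)‖ ≤ C * t ^ r * Real.exp (Jw (hd r) t)

/-- from the half discs to the moments -/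
def S_cr : Prop := S_pw → ∀ k : ℕ, 1 ≤ k →
  (∀ l r ε : ℝ, 0 < l → l < 2 * k → 0 < r → r ≤ 1 → 0 < ε → ∃ A : ℝ, ∀ T : ℝ, 2 ≤ T →
    ∫⁻ t in Icc 2 T, ENNReal.ofReal (Real.exp (l * Jw (hd r) t)) ≤ ENNReal.ofReal (A * T ^ (1 + ε))) →
  ∀ ε : ℝ, 0 < ε → ∃ A : ℝ, ∀ T : ℝ, 1 ≤ T →
    ∫ t in (1:ℝ)..T, ‖riemannZeta (1 / 2 + t * Complex.I)‖ ^ (2 * k) ≤ A * T ^ (1 + ε)

/-- closeness for the weights -/
def S_dif : Prop := ∀ (ω : Measure (ℝ × ℝ)) (W R : ℝ), Wt ω W R → ∀ ε : ℝ, 0 < ε → ∃ N₀ : ℕ, ∀ N : ℕ, N₀ ≤ N →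
  ∃ T₀ : ℝ, 2 ≤ T₀ ∧ ∀ T : ℝ, T₀ ≤ T →
    ∫⁻ t in Icc 2 T, ‖Jw ω t - Xw ω N t‖ₑ ≤ ENNReal.ofReal (ε * T)

end

end Pool.Agent.Y757.GM
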