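import Pool.Agent.Y757.GM.Seg
import Pool.Agent.Y757.EM.Fin

set_option autoImplicit false

/-! The criterion. -/

namespace Pool.Agent.Y757.GM

open MeasureTheory Set Filter Topology Pool.Agent.Y757.LS Pool.Agent.Y757.EM Real ZU
open scoped ENNReal

noncomputable section

/-- the ingredients -/
structure Ing : Prop where
  clo : S_clo
  eul : S_eul
  up : S_up
  hd : S_hd
  pw : S_pw
  cr : S_cr

/-- the formula -/
def Form (ω : Measure (ℝ × ℝ)) : Prop :=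
  Tendsto (fun T : ℝ => 1 / T * ∫ t in (2:ℝ)..T, Real.exp (Jw ω t)) atTop (𝓝 (Cw ω))

/-- the weak moment bound -/
def Mom (k : ℕ) : Prop := ∀ ε : ℝ, 0 < ε → ∃ A : ℝ, ∀ T : ℝ, 1 ≤ T →
  ∫ t in (1:ℝ)..T, ‖riemannZeta (1 / 2 + t * Complex.I)‖ ^ (2 * k) ≤ A * T ^ (1 + ε)

/-- bounded moments for the half discs -/
def BD (k : ℕ) : Prop := ∀ l r : ℝ, 0 < l → l < 2 * k → 0 < r → r ≤ 1 → ∃ A : ℝ, ∀ T : ℝ, 2 ≤ T →
  ∫ t in (2:ℝ)..T, Real.exp (l * Jw (hd r) t) ≤ A * T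

/-- almost bounded moments for the half discs -/
def BE (k : ℕ) : Prop := ∀ l r ε : ℝ, 0 < l → l < 2 * k → 0 < r → r ≤ 1 → 0 < ε → ∃ A : ℝ, ∀ T : ℝ, 2 ≤ T →
  ∫ t in (2:ℝ)..T, Real.exp (l * Jw (hd r) t) ≤ A * T ^ (1 + ε)

lemma mom_hyp {k : ℕ} (h : Mom k) : HypK k := hyp_of_moment h

lemma form_of_mom (I : Ing) {k : ℕ} (hk : 1 ≤ k) (hm : HypK k) {ω : Measure (ℝ × ℝ)} {W R : ℝ}
    (h : Wt ω W R) (hκ : kap ω < 2 * k) : Form ω :=
  main_w I.clo I.eul I.up hk hm h hκ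

/-- the formula gives bounded moments -/
lemma bdd_of_form (I : Ing) {ω : Measure (ℝ × ℝ)} {W R : ℝ} (h : Wt ω W R) (hf : Form ω) :
    ∃ A : ℝ, ∀ T : ℝ, 2 ≤ T → ∫ t in (2:ℝ)..T, Real.exp (Jw ω t) ≤ A * T := by
  have h3 := hf.eventually (gt_mem_nhds (show Cw ω < Cw ω + 1 by linarith))
  rw [eventually_atTop] at h3
  obtain ⟨T₀, hT₀⟩ := h3
  set T₁ : ℝ := max 2 T₀ with hT₁
  have hT₁2 : 2 ≤ T₁ := le_max_left _ _
  have hii : ∀ T : ℝ, 2 ≤ T → IntervalIntegrable (fun t => Real.exp (Jw ω t)) volume 2 T := by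
    intro T hT
    have := expJ_ii I.up h zero_le_one hT
    simpa only [one_mul] using this
  have hb : ∀ T : ℝ, T₁ ≤ T → ∫ t in (2:ℝ)..T, Real.exp (Jw ω t) ≤ |Cw ω + 1| * T := by
    intro T hT
    have hT0 : 0 < T := by linarith
    have h4 := (hT₀ T ((le_max_right _ _).trans hT)).le
    rw [one_div, inv_mul_le_iff₀ hT0] at h4
    have h5 := le_abs_self (Cw ω + 1)
    nlinarith
  refine ⟨|Cw ω + 1| * T₁, fun T hT => ?_⟩
  have hT0 : 0 < T := by linarith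
  have hC := abs_nonneg (Cw ω + 1)
  rcases le_total T₁ T with h1 | h1
  · refine (hb T h1).trans ?_
    have : |Cw ω + 1| * 1 ≤ |Cw ω + 1| * T₁ := by gcongr; linarith
    rw [mul_one] at this
    gcongr
  · have h2 : ∫ t in (2:ℝ)..T, Real.exp (Jw ω t) ≤ ∫ t in (2:ℝ)..T₁, Real.exp (Jw ω t) :=
      intervalIntegral.integral_mono_interval le_rfl hT h1
        (Eventually.of_forall fun x => (Real.exp_pos _).le) (hii T₁ hT₁2)
    refine h2.trans ((hb T₁ le_rfl).trans ?_)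
    have : |Cw ω + 1| * T₁ * 1 ≤ |Cw ω + 1| * T₁ * T := by gcongr; linarith
    linarith

lemma Jw_smul (ω : Measure (ℝ × ℝ)) {c : ℝ} (hc : 0 ≤ c) (t : ℝ) :
    Jw (ENNReal.ofReal c • ω) t = c * Jw ω t := smul_int ω hc _

lemma mass_smul {ω : Measure (ℝ × ℝ)} (h1 : ω univ = 1) (c : ℝ) :
    (ENNReal.ofReal c • ω) univ = ENNReal.ofReal c := by
  rw [Measure.smul_apply, h1, smul_eq_mul, mul_one]

/-- from the formula for the weights of mass less than `2k` to the half discs -/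
lemma bd_of_form (I : Ing) {k : ℕ} (hf : ∀ (ω : Measure (ℝ × ℝ)) (W R : ℝ), Wt ω W R → ω univ < 2 * k → Form ω) :
    BD k := by
  intro l r hl hlk hr hr1
  obtain ⟨h1, h2⟩ := I.hd r hr hr1
  have h3 := h1.smul hl.le
  have h4 := hf _ _ _ h3 (by
    rw [mass_smul h2]
    have e : (2 * k : ℝ≥0∞) = ENNReal.ofReal (2 * k) := by
      rw [ENNReal.ofReal_mul (by norm_num)]; simp
    rw [e]
    exact (ENNReal.ofReal_lt_ofReal_iff (by linarith)).2 hlk)
  obtain ⟨A, hA⟩ := bdd_of_form I h3 h4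
  refine ⟨A, fun T hT => ?_⟩
  have := hA T hT
  simpa only [Jw_smul _ hl.le] using this

lemma be_of_bd {k : ℕ} (h : BD k) : BE k := by
  intro l r ε hl hlk hr hr1 hε
  obtain ⟨A, hA⟩ := h l r hl hlk hr hr1
  refine ⟨|A|, fun T hT => (hA T hT).trans ?_⟩
  have h1 : T ^ (1:ℝ) ≤ T ^ (1 + ε) := Real.rpow_le_rpow_of_exponent_le (by linarith) (by linarith)
  rw [Real.rpow_one] at h1
  have := le_abs_self A
  have := abs_nonneg A
  calc A * T ≤ |A| * T := by gcongr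
    _ ≤ _ := by gcongr

lemma mom_of_be (I : Ing) {k : ℕ} (hk : 1 ≤ k) (h : BE k) : Mom k := by
  refine I.cr I.pw k hk fun l r ε hl hlk hr hr1 hε => ?_
  obtain ⟨A, hA⟩ := h l r ε hl hlk hr hr1 hε
  refine ⟨A, fun T hT => ?_⟩
  have hii := (intervalIntegrable_iff_integrableOn_Ioc_of_le hT).1 (expJ_ii I.up (I.hd r hr hr1).1 hl.le hT)
  have h1 := hA T hT
  rw [intervalIntegral.integral_of_le hT] at h1
  calc ∫⁻ t in Icc 2 T, ENNReal.ofReal (Real.exp (l * Jw (hd r) t))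
      = ∫⁻ t in Ioc 2 T, ENNReal.ofReal (Real.exp (l * Jw (hd r) t)) := by
        rw [restrict_Ioc_eq_restrict_Icc]
    _ = ENNReal.ofReal (∫ t in Ioc 2 T, Real.exp (l * Jw (hd r) t)) :=
        (ofReal_integral_eq_lintegral_ofReal hii (Eventually.of_forall fun t => (Real.exp_pos _).le)).symm
    _ ≤ _ := ENNReal.ofReal_le_ofReal h1

lemma kap_lt {ω : Measure (ℝ × ℝ)} {W R : ℝ} (h : Wt ω W R) {k : ℕ} (hm : ω univ < 2 * k) : kap ω < 2 * k := by
  refine (kap_le_mass h).trans_lt ?_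
  have e : (2 * k : ℝ≥0∞) = ENNReal.ofReal (2 * k) := by
    rw [ENNReal.ofReal_mul (by norm_num)]; simp
  rw [e] at hm
  exact (ENNReal.lt_ofReal_iff_toReal_lt hm.ne_top).1 hm

/-- **the criterion** -/
theorem crit (I : Ing) {k : ℕ} (hk : 1 ≤ k) :
    List.TFAE [Mom k,
      ∀ (ω : Measure (ℝ × ℝ)) (W R : ℝ), Wt ω W R → kap ω < 2 * k → Form ω,
      ∀ (ω : Measure (ℝ × ℝ)) (W R : ℝ), Wt ω W R → ω univ < 2 * k → Form ω,
      BD k, BE k] := by
  tfae_have 1 → 2 := fun h ω W R hw hκ => form_of_mom I hk (mom_hyp h) hw hκ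
  tfae_have 2 → 3 := fun h ω W R hw hm => h ω W R hw (kap_lt hw hm)
  tfae_have 3 → 4 := fun h => bd_of_form I h
  tfae_have 4 → 5 := fun h => be_of_bd h
  tfae_have 5 → 1 := fun h => mom_of_be I hk h
  tfae_finish

/-- the Lindelöf hypothesis -/
theorem lindelof (I : Ing) : Exponent 0 ↔ ∀ (ω : Measure (ℝ × ℝ)) (W R : ℝ), Wt ω W R → Form ω := by
  constructor
  · intro h ω W R hw
    obtain ⟨k, hk⟩ := exists_nat_gt (kap ω)
    have hκ0 : 0 ≤ kap ω := integral_nonneg fun q => le_max_left _ _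
    have hk1 : 1 ≤ k := by
      rcases Nat.eq_zero_or_pos k with h0 | h0
      · subst h0
        rw [Nat.cast_zero] at hk
        linarith
      · exact h0
    exact form_of_mom I hk1 (hyp_of_LH h hk1) hw (by linarith)
  · intro h
    refine lh_of_all fun c hc => ?_
    obtain ⟨k, hk⟩ := exists_nat_gt c
    have hk1 : 1 ≤ k := by
      rcases Nat.eq_zero_or_pos k with h0 | h0
      · subst h0
        rw [Nat.cast_zero] at hk
        linarith
      · exact h0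
    have hm : Mom k := ((crit I hk1).out 2 0).1 fun ω W R hw _ => h ω W R hw
    obtain ⟨A, hA⟩ := bdd_of_hyp hk1 (mom_hyp hm) hc (by linarith)
    exact ⟨A, 1, hA⟩

end

end Pool.Agent.Y757.GM
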