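import Pool.Agent.Y757.GM.U

set_option autoImplicit false

/-! The asymptotic formula for the weighted geometric means. -/

namespace Pool.Agent.Y757.GM

open MeasureTheory Set Filter Topology Pool.Agent.Y757.LS Pool.Agent.Y757.EM Real ZU
open scoped ENNReal

noncomputable section

variable {ω : Measure (ℝ × ℝ)} {W R : ℝ}

lemma Xi_meas2 (N : ℕ) : Measurable (fun q : ℝ × ℝ => Xi N q.1 q.2) := by
  unfold Xi
  refine (lz_meas_comp measurable_fst measurable_snd).sub ?_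
  exact Finset.measurable_fun_sum _ fun p _ => psi_meas_comp p measurable_fst measurable_snd

lemma Xi_meas_comp (N : ℕ) {α : Type*} [MeasurableSpace α] {u v : α → ℝ} (hu : Measurable u)
    (hv : Measurable v) : Measurable (fun x => Xi N (u x) (v x)) := by
  unfold Xi
  refine (lz_meas_comp hu hv).sub ?_
  exact Finset.measurable_fun_sum _ fun p _ => psi_meas_comp p hu hv

lemma Lw_eq (ω : Measure (ℝ × ℝ)) {p : ℕ} (hp : 2 ≤ p) (t : ℝ) :
    Lw ω p (t * (Real.log p / (2 * Real.pi))) = ∫ q, psi p q.1 (t + q.2) ∂ω := by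
  unfold Lw
  congr 1
  funext q
  rw [psi_eq_ps hp]
  congr 1
  ring

lemma psi_intw (h : Wt ω W R) {p : ℕ} (hp : 2 ≤ p) (t : ℝ) : Integrable (fun q : ℝ × ℝ => psi p q.1 (t + q.2)) ω := by
  have := h.fin
  refine Integrable.mono' (g := fun _ => (3:ℝ)) (integrable_const _)
    (psi_meas_comp p measurable_fst (measurable_const.add measurable_snd)).aestronglyMeasurable ?_
  filter_upwards [h.supp] with q hq
  rw [Real.norm_eq_abs]
  exact psi_le hp hq.1.le _

lemma JX_le (h : Wt ω W R) (N : ℕ) (t : ℝ) :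
    ‖Jw ω t - Xw ω N t‖ₑ ≤ ∫⁻ q, ‖Xi N q.1 (t + q.2)‖ₑ ∂ω := by
  by_cases htop : ∫⁻ q, ‖Xi N q.1 (t + q.2)‖ₑ ∂ω = ⊤
  · rw [htop]; exact le_top
  have hX : Xw ω N t = ∫ q, ∑ p ∈ pr N, psi p q.1 (t + q.2) ∂ω := by
    rw [integral_finsetSum _ fun p hp => psi_intw h (pr_two hp) t]
    unfold Xw
    exact Finset.sum_congr rfl fun p hp => Lw_eq ω (pr_two hp) t
  have hm : Measurable (fun q : ℝ × ℝ => Xi N q.1 (t + q.2)) :=
    Xi_meas_comp N measurable_fst (measurable_const.add measurable_snd)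
  have hXi : Integrable (fun q : ℝ × ℝ => Xi N q.1 (t + q.2)) ω :=
    ⟨hm.aestronglyMeasurable, lt_top_iff_ne_top.2 htop⟩
  have hs : Integrable (fun q : ℝ × ℝ => ∑ p ∈ pr N, psi p q.1 (t + q.2)) ω :=
    integrable_finsetSum _ fun p hp => psi_intw h (pr_two hp) t
  have hlz : Integrable (fun q : ℝ × ℝ => lz q.1 (t + q.2)) ω := by
    refine (hXi.add hs).congr (Eventually.of_forall fun q => ?_)
    simp only [Xi, Pi.add_apply]
    ring
  have e : Jw ω t - Xw ω N t = ∫ q, Xi N q.1 (t + q.2) ∂ω := by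
    rw [hX]
    unfold Jw
    rw [← integral_sub hlz hs]
    rfl
  rw [e]
  exact enorm_integral_le_lintegral_enorm _

lemma dif_int (hclo : S_clo) (h : Wt ω W R) {ε : ℝ} (hε : 0 < ε) : ∃ N₀ : ℕ, ∀ N : ℕ, N₀ ≤ N →
    ∃ T₀ : ℝ, 2 ≤ T₀ ∧ ∀ T : ℝ, T₀ ≤ T →
      ∫⁻ t in Icc 2 T, ∫⁻ q, ‖Xi N q.1 (t + q.2)‖ₑ ∂ω ≤ ENNReal.ofReal (ε * T) := by
  have hfin := h.fin
  have hW := h.W0
  obtain ⟨N₀, hN₀⟩ := hclo (ε / (2 * (W + 1))) (by positivity)
  refine ⟨N₀, fun N hN => ?_⟩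
  obtain ⟨T₀, hT₀, hb⟩ := hN₀ N hN
  refine ⟨max 2 T₀, le_max_left _ _, fun T hT => ?_⟩
  have hT2 : 2 ≤ T := (le_max_left _ _).trans hT
  have hb' := hb (T + 1) (by linarith [(le_max_right 2 T₀).trans hT])
  have hm3 : Measurable (fun p : ℝ × (ℝ × ℝ) => ‖Xi N p.2.1 (p.1 + p.2.2)‖ₑ) :=
    (Xi_meas_comp N measurable_snd.fst (measurable_fst.add measurable_snd.snd)).enorm
  have hm4 : Measurable (fun p : ℝ × ℝ => ‖Xi N p.2 p.1‖ₑ) :=
    (Xi_meas_comp N measurable_snd measurable_fst).enorm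
  have hm5 : Measurable (fun p : ℝ × ℝ => ‖Xi N p.1 p.2‖ₑ) := (Xi_meas2 N).enorm
  have hΦ : Measurable (fun x : ℝ => ∫⁻ u in Icc 1 (T + 1), ‖Xi N x u‖ₑ) :=
    Measurable.lintegral_prod_right' (f := fun p : ℝ × ℝ => ‖Xi N p.1 p.2‖ₑ) hm5
  calc ∫⁻ t in Icc 2 T, ∫⁻ q, ‖Xi N q.1 (t + q.2)‖ₑ ∂ω
      = ∫⁻ q, (∫⁻ t in Icc 2 T, ‖Xi N q.1 (t + q.2)‖ₑ) ∂ω := by
        rw [lintegral_lintegral_swap]
        exact hm3.aemeasurable
    _ ≤ ∫⁻ q in Prod.fst ⁻¹' Ioi 0, (∫⁻ u in Icc 1 (T + 1), ‖Xi N q.1 u‖ₑ) ∂ω := by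
        have e : ω = ω.restrict (Prod.fst ⁻¹' Ioi 0) := by
          refine (Measure.restrict_eq_self_of_ae_mem ?_).symm
          filter_upwards [h.supp] with q hq
          exact hq.1
        conv_lhs => rw [e]
        refine lintegral_mono_ae ?_
        filter_upwards [ae_restrict_of_ae h.supp] with q hq
        have h1 := (measurePreserving_add_right volume q.2).setLIntegral_comp_preimage
          (s := Icc (2 + q.2) (T + q.2)) measurableSet_Icc
          (show Measurable (fun u : ℝ => ‖Xi N q.1 u‖ₑ) from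
            (Xi_meas_comp N measurable_const measurable_id).enorm)
        have e2 : (fun x => x + q.2) ⁻¹' Icc (2 + q.2) (T + q.2) = Icc 2 T := by
          ext x; simp
        rw [e2] at h1
        rw [h1]
        refine lintegral_mono_set ?_
        have h2 := abs_le.1 hq.2.2
        intro x hx
        exact ⟨by linarith [hx.1, h2.1], by linarith [hx.2, h2.2]⟩
    _ ≤ ENNReal.ofReal W * ∫⁻ x in Ioi 0, ∫⁻ u in Icc 1 (T + 1), ‖Xi N x u‖ₑ := h.lint hΦ measurableSet_Ioi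
    _ = ENNReal.ofReal W * ∫⁻ u in Icc 1 (T + 1), ∫⁻ x in Ioi 0, ‖Xi N x u‖ₑ := by
        congr 1
        rw [lintegral_lintegral_swap]
        exact hm5.aemeasurable
    _ ≤ ENNReal.ofReal W * ENNReal.ofReal (ε / (2 * (W + 1)) * (T + 1)) := by gcongr
    _ ≤ _ := by
        rw [← ENNReal.ofReal_mul hW]
        apply ENNReal.ofReal_le_ofReal
        have h1 : W * (ε / (2 * (W + 1)) * (T + 1)) = ε * (W / (W + 1)) * ((T + 1) / 2) := by
          field_simp
        rw [h1]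
        have h2 : W / (W + 1) ≤ 1 := by rw [div_le_one (by positivity)]; linarith
        have h3 : (T + 1) / 2 ≤ T := by linarith
        have h4 : 0 ≤ (T + 1) / 2 := by linarith
        calc _ ≤ ε * 1 * T := by gcongr
          _ = _ := by ring

theorem t_dif (hclo : S_clo) : S_dif := by
  intro ω W R h ε hε
  obtain ⟨N₀, hN₀⟩ := dif_int hclo h hε
  refine ⟨N₀, fun N hN => ?_⟩
  obtain ⟨T₀, hT₀, hb⟩ := hN₀ N hN
  exact ⟨T₀, hT₀, fun T hT => (lintegral_mono fun t => JX_le h N t).trans (hb T hT)⟩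

/-- `log |ζ|` is integrable for almost all `t` -/
theorem ae_int (hclo : S_clo) (h : Wt ω W R) :
    ∀ᵐ t ∂(volume.restrict (Ici (2:ℝ))), Integrable (fun q : ℝ × ℝ => lz q.1 (t + q.2)) ω := by
  have hfin := h.fin
  obtain ⟨N₀, hN₀⟩ := dif_int hclo h one_pos
  obtain ⟨T₀, hT₀, hb⟩ := hN₀ N₀ le_rfl
  have e : Ici (2:ℝ) = ⋃ n : ℕ, Icc 2 (max T₀ n) := by
    ext t
    simp only [mem_Ici, mem_iUnion, mem_Icc]
    constructor
    · intro ht
      obtain ⟨n, hn⟩ := exists_nat_ge t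
      exact ⟨n, ht, hn.trans (le_max_right _ _)⟩
    · rintro ⟨n, h1, _⟩
      exact h1
  rw [e, ae_restrict_iUnion_iff]
  intro n
  have h1 := (hb (max T₀ n) (le_max_left _ _)).trans_lt ENNReal.ofReal_lt_top
  have hm3 : Measurable (fun p : ℝ × (ℝ × ℝ) => ‖Xi N₀ p.2.1 (p.1 + p.2.2)‖ₑ) :=
    (Xi_meas_comp N₀ measurable_snd.fst (measurable_fst.add measurable_snd.snd)).enorm
  have hm6 : Measurable (fun t : ℝ => ∫⁻ q, ‖Xi N₀ q.1 (t + q.2)‖ₑ ∂ω) :=
    Measurable.lintegral_prod_right' (f := fun p : ℝ × (ℝ × ℝ) => ‖Xi N₀ p.2.1 (p.1 + p.2.2)‖ₑ) hm3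
  filter_upwards [ae_lt_top hm6 h1.ne] with t ht
  have hm : Measurable (fun q : ℝ × ℝ => Xi N₀ q.1 (t + q.2)) :=
    Xi_meas_comp N₀ measurable_fst (measurable_const.add measurable_snd)
  have hXi : Integrable (fun q : ℝ × ℝ => Xi N₀ q.1 (t + q.2)) ω := ⟨hm.aestronglyMeasurable, ht⟩
  have hs : Integrable (fun q : ℝ × ℝ => ∑ p ∈ pr N₀, psi p q.1 (t + q.2)) ω :=
    integrable_finsetSum _ fun p hp => psi_intw h (pr_two hp) t
  refine (hXi.add hs).congr (Eventually.of_forall fun q => ?_)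
  simp only [Xi, Pi.add_apply]
  ring

/-- scaling of the weight -/
lemma Wt.smul (h : Wt ω W R) {c : ℝ} (hc : 0 ≤ c) : Wt (ENNReal.ofReal c • ω) (c * W) R := by
  refine ⟨mul_nonneg hc h.W0, h.R0, Measure.ae_smul_measure h.supp _, ?_⟩
  rw [Measure.map_smul, ENNReal.ofReal_mul hc, ← smul_smul]
  intro s
  rw [Measure.smul_apply, Measure.smul_apply]
  simp only [smul_eq_mul]
  gcongr
  exact h.dens

lemma smul_int (ω : Measure (ℝ × ℝ)) {c : ℝ} (hc : 0 ≤ c) (f : ℝ × ℝ → ℝ) :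
    ∫ q, f q ∂(ENNReal.ofReal c • ω) = c * ∫ q, f q ∂ω := by
  rw [integral_smul_measure, ENNReal.toReal_ofReal hc, smul_eq_mul]

lemma kap_smul (ω : Measure (ℝ × ℝ)) {c : ℝ} (hc : 0 ≤ c) : kap (ENNReal.ofReal c • ω) = c * kap ω :=
  smul_int ω hc _

lemma Xw_smul (ω : Measure (ℝ × ℝ)) {c : ℝ} (hc : 0 ≤ c) (N : ℕ) (t : ℝ) :
    Xw (ENNReal.ofReal c • ω) N t = c * Xw ω N t := by
  unfold Xw Lw
  rw [Finset.mul_sum]
  exact Finset.sum_congr rfl fun p _ => smul_int ω hc _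

lemma expJ_ii (hup : S_up) (h : Wt ω W R) {c : ℝ} (hc : 0 ≤ c) {T : ℝ} (hT : 2 ≤ T) :
    IntervalIntegrable (fun t => Real.exp (c * Jw ω t)) volume 2 T := by
  obtain ⟨hm, _, C, hC⟩ := hup ω W R h
  rw [intervalIntegrable_iff_integrableOn_Ioc_of_le hT]
  refine Integrable.mono' (g := fun _ => Real.exp (c * (|C| + |C| * Real.log T))) (integrable_const _)
    (Real.measurable_exp.comp (hm.const_mul c)).aestronglyMeasurable ?_
  rw [ae_restrict_iff' measurableSet_Ioc]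
  refine Eventually.of_forall fun t ht => ?_
  rw [Real.norm_of_nonneg (Real.exp_pos _).le]
  apply Real.exp_le_exp.2
  have h1 := hC t ht.1.le
  have h2 : Real.log t ≤ Real.log T := Real.log_le_log (by linarith [ht.1]) ht.2
  have h3 : 0 ≤ Real.log t := Real.log_nonneg (by linarith [ht.1])
  have h4 : C + C * Real.log t ≤ |C| + |C| * Real.log T := by
    have := le_abs_self C
    have := abs_nonneg C
    nlinarith
  gcongr
  linarith

/-- bounded exponential moments of `J_ω` -/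
lemma exp_Jw (hup : S_up) {k : ℕ} (hk : 1 ≤ k) (hyp : HypK k) (h : Wt ω W R) {c : ℝ} (hc : 0 < c)
    (hκ : c * kap ω < 2 * k) : ∃ A : ℝ, 0 ≤ A ∧ ∀ T : ℝ, 2 ≤ T →
      ∫ t in (2:ℝ)..T, Real.exp (c * Jw ω t) ≤ A * T := by
  obtain ⟨A, hA, hb⟩ := t_U k hk hyp _ _ _ (h.smul hc.le) (by rwa [kap_smul ω hc.le])
  obtain ⟨hm, ⟨C, hC⟩, _⟩ := hup ω W R h
  refine ⟨Real.exp (c * C) * (2 * A), by positivity, fun T hT => ?_⟩
  have h1 : ∫⁻ t in Ioc 2 T, ENNReal.ofReal (Real.exp (c * Jw ω t)) ≤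
      ENNReal.ofReal (Real.exp (c * C) * (2 * A) * T) := by
    calc _ ≤ ∫⁻ t in Ioc 2 T, ENNReal.ofReal (Real.exp (c * C)) *
          ENNReal.ofReal (Real.exp (∫ q, vv q.1 (t + q.2) ∂(ENNReal.ofReal c • ω))) := by
          refine setLIntegral_mono' measurableSet_Ioc fun t ht => ?_
          rw [← ENNReal.ofReal_mul (Real.exp_pos _).le, ← Real.exp_add, smul_int ω hc.le]
          apply ENNReal.ofReal_le_ofReal
          apply Real.exp_le_exp.2
          have := hC t ht.1.le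
          nlinarith
      _ = ENNReal.ofReal (Real.exp (c * C)) * ∫⁻ t in Ioc 2 T,
          ENNReal.ofReal (Real.exp (∫ q, vv q.1 (t + q.2) ∂(ENNReal.ofReal c • ω))) :=
          lintegral_const_mul' _ _ ENNReal.ofReal_ne_top
      _ ≤ ENNReal.ofReal (Real.exp (c * C)) * ENNReal.ofReal (A * (1 + T) ^ (1:ℝ)) := by
          gcongr
          refine le_trans (lintegral_mono_set ?_) (hb T (by linarith))
          intro t ht
          exact ⟨by linarith [ht.1], ht.2⟩
      _ ≤ _ := by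
          rw [← ENNReal.ofReal_mul (Real.exp_pos _).le, Real.rpow_one]
          apply ENNReal.ofReal_le_ofReal
          rw [mul_assoc]
          have : A * (1 + T) ≤ 2 * A * T := by nlinarith
          gcongr
  have hi := (intervalIntegrable_iff_integrableOn_Ioc_of_le hT).1 (expJ_ii hup h hc.le hT)
  rw [intervalIntegral.integral_of_le hT]
  rw [← ofReal_integral_eq_lintegral_ofReal hi (Eventually.of_forall fun t => (Real.exp_pos _).le)] at h1
  exact (ENNReal.ofReal_le_ofReal_iff (by positivity)).1 h1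

/-- exponential moments of the sums over primes are uniformly bounded -/
lemma exp_Xw (heul : S_eul) (h : Wt ω W R) {c : ℝ} (hc : 0 ≤ c) : ∃ B : ℝ, 0 ≤ B ∧ ∀ N : ℕ, ∃ T₀ : ℝ, 2 ≤ T₀ ∧
    ∀ T : ℝ, T₀ ≤ T → ∫ t in (2:ℝ)..T, Real.exp (c * Xw ω N t) ≤ B * T := by
  obtain ⟨e1, e2, e3, e4, e5⟩ := heul _ _ _ (h.smul hc)
  obtain ⟨B, hB⟩ := e5.norm.bddAbove_range
  have hB' : ∀ N : ℕ, ‖∏ p ∈ pr N, facw (ENNReal.ofReal c • ω) p‖ ≤ B := fun N => hB ⟨N, rfl⟩
  have hB0 : 0 ≤ B := (norm_nonneg _).trans (hB' 0)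
  refine ⟨B + 1, by positivity, fun N => ?_⟩
  have h3 := (e3 N).eventually (gt_mem_nhds (show ∏ p ∈ pr N, facw (ENNReal.ofReal c • ω) p < B + 1 by
    have := hB' N
    rw [Real.norm_eq_abs] at this
    linarith [le_abs_self (∏ p ∈ pr N, facw (ENNReal.ofReal c • ω) p)]))
  rw [eventually_atTop] at h3
  obtain ⟨T₀, hT₀⟩ := h3
  refine ⟨max 2 T₀, le_max_left _ _, fun T hT => ?_⟩
  have hT2 : 2 ≤ T := (le_max_left _ _).trans hT
  have hT0 : 0 < T := by linarith
  have h4 := (hT₀ T ((le_max_right _ _).trans hT)).le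
  rw [one_div, inv_mul_le_iff₀ hT0] at h4
  have hcont : Continuous (fun t => Real.exp (Xw (ENNReal.ofReal c • ω) N t)) := Real.continuous_exp.comp (e1 N)
  have h5 : ∫ t in (1:ℝ)..T, Real.exp (Xw (ENNReal.ofReal c • ω) N t) =
      (∫ t in (1:ℝ)..2, Real.exp (Xw (ENNReal.ofReal c • ω) N t)) +
        ∫ t in (2:ℝ)..T, Real.exp (Xw (ENNReal.ofReal c • ω) N t) :=
    (intervalIntegral.integral_add_adjacent_intervals (hcont.intervalIntegrable _ _)
      (hcont.intervalIntegrable _ _)).symm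
  have h6 : 0 ≤ ∫ t in (1:ℝ)..2, Real.exp (Xw (ENNReal.ofReal c • ω) N t) :=
    intervalIntegral.integral_nonneg (by norm_num) fun t _ => (Real.exp_pos _).le
  have h7 : ∫ t in (2:ℝ)..T, Real.exp (c * Xw ω N t) = ∫ t in (2:ℝ)..T, Real.exp (Xw (ENNReal.ofReal c • ω) N t) := by
    simp only [Xw_smul ω hc]
  rw [h7]
  linarith

lemma exp_diff1 {c : ℝ} (hc : 1 < c) (K x y : ℝ) :
    |Real.exp x - Real.exp y| ≤ 2 * Real.exp (-((c - 1) * K)) * (Real.exp (c * x) + Real.exp (c * y)) +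
      Real.exp K * |x - y| := by
  have h := exp_diff (1 : ℂ) (by simp) (c := c) (by simpa using hc) K x y
  rw [Complex.one_re, norm_one, one_mul, one_mul, one_mul, one_mul, ← Complex.ofReal_exp, ← Complex.ofReal_exp,
    ← Complex.ofReal_sub, Complex.norm_real, Real.norm_eq_abs] at h
  exact h

/-- **the asymptotic formula** -/
theorem main_w (hclo : S_clo) (heul : S_eul) (hup : S_up) {k : ℕ} (hk : 1 ≤ k) (hyp : HypK k)
    (h : Wt ω W R) (hκ : kap ω < 2 * k) :
    Tendsto (fun T : ℝ => 1 / T * ∫ t in (2:ℝ)..T, Real.exp (Jw ω t)) atTop (𝓝 (Cw ω)) := by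
  have hκ0 : 0 ≤ kap ω := integral_nonneg fun q => le_max_left _ _
  obtain ⟨c, hc1, hcκ⟩ : ∃ c : ℝ, 1 < c ∧ c * kap ω < 2 * k := by
    refine ⟨1 + (2 * k - kap ω) / (2 * (kap ω + 1)), ?_, ?_⟩
    · have : 0 < (2 * k - kap ω) / (2 * (kap ω + 1)) := div_pos (by linarith) (by positivity)
      linarith
    · have h1 : (2 * k - kap ω) / (2 * (kap ω + 1)) * kap ω ≤ (2 * k - kap ω) / 2 := by
        rw [div_mul_eq_mul_div, div_le_div_iff₀ (by positivity) (by norm_num)]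
        nlinarith
      nlinarith
  have hc0 : 0 < c := by linarith
  obtain ⟨A, hA, hJ⟩ := exp_Jw hup hk hyp h hc0 hcκ
  obtain ⟨B, hB, hX⟩ := exp_Xw heul h hc0.le
  obtain ⟨e1, e2, e3, e4, e5⟩ := heul _ _ _ h
  obtain ⟨hJm, _, _⟩ := hup ω W R h
  rw [Metric.tendsto_nhds]
  intro ε hε
  -- the cut
  have hcut : Tendsto (fun K : ℝ => 2 * Real.exp (-((c - 1) * K)) * (A + B)) atTop (𝓝 (2 * 0 * (A + B))) := by
    have a1 : Tendsto (fun K : ℝ => (c - 1) * K) atTop atTop :=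
      tendsto_id.const_mul_atTop (by linarith)
    exact ((Real.tendsto_exp_neg_atTop_nhds_zero.comp a1).const_mul 2).mul_const _
  rw [mul_zero, zero_mul] at hcut
  obtain ⟨K, hK⟩ := (hcut.eventually (gt_mem_nhds (show (0:ℝ) < ε / 8 by positivity))).exists
  set L : ℝ := Real.exp K with hL
  have hL0 : 0 ≤ L := (Real.exp_pos _).le
  obtain ⟨N₁, hN₁⟩ := t_dif hclo ω W R h (ε / (8 * (L + 1))) (by positivity)
  rw [Metric.tendsto_atTop] at e5
  obtain ⟨N₂, hN₂⟩ := e5 (ε / 4) (by positivity)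
  set N := max N₁ N₂ with hN
  obtain ⟨T₁, hT₁, hcl⟩ := hN₁ N (le_max_left _ _)
  have hprod := hN₂ N (le_max_right _ _)
  obtain ⟨T₂, hT₂, hXN⟩ := hX N
  have hcont : Continuous (fun t => Real.exp (Xw ω N t)) := Real.continuous_exp.comp (e1 N)
  -- the average from 2
  set D : ℝ := ∫ t in (1:ℝ)..2, Real.exp (Xw ω N t) with hD
  have h2 : Tendsto (fun T : ℝ => 1 / T * ∫ t in (2:ℝ)..T, Real.exp (Xw ω N t)) atTop
      (𝓝 (∏ p ∈ pr N, facw ω p)) := by
    have a1 : Tendsto (fun T : ℝ => T⁻¹ * D) atTop (𝓝 (0 * D)) := tendsto_inv_atTop_zero.mul_const D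
    rw [zero_mul] at a1
    have a2 := (e3 N).sub a1
    rw [sub_zero] at a2
    refine a2.congr fun T => ?_
    have h5 : ∫ t in (1:ℝ)..T, Real.exp (Xw ω N t) = D + ∫ t in (2:ℝ)..T, Real.exp (Xw ω N t) :=
      (intervalIntegral.integral_add_adjacent_intervals (hcont.intervalIntegrable _ _)
        (hcont.intervalIntegrable _ _)).symm
    rw [h5]
    ring
  rw [Metric.tendsto_nhds] at h2
  have h3 := h2 (ε / 4) (by positivity)
  filter_upwards [h3, eventually_ge_atTop T₁, eventually_ge_atTop T₂] with T hav hTT₁ hTT₂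
  have hT2 : 2 ≤ T := hT₁.trans hTT₁
  have hT0 : 0 < T := by linarith
  have b1 := hcl T hTT₁
  have b2 := hJ T hT2
  have b3 := hXN T hTT₂
  have i2 := expJ_ii hup h hc0.le hT2
  have iJ : IntervalIntegrable (fun t => Real.exp (Jw ω t)) volume 2 T := by
    have := expJ_ii hup h zero_le_one hT2
    simpa only [one_mul] using this
  have hXc : Continuous (fun t => Real.exp (c * Xw ω N t)) :=
    Real.continuous_exp.comp (continuous_const.mul (e1 N))
  have i3 : IntervalIntegrable (fun t => Real.exp (c * Xw ω N t)) volume 2 T := hXc.intervalIntegrable _ _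
  have iX : IntervalIntegrable (fun t => Real.exp (Xw ω N t)) volume 2 T := hcont.intervalIntegrable _ _
  have b1' : ∫⁻ t in Ioc 2 T, ‖Jw ω t - Xw ω N t‖ₑ ≤ ENNReal.ofReal (ε / (8 * (L + 1)) * T) :=
    (lintegral_mono_set Ioc_subset_Icc_self).trans b1
  have i1' : IntegrableOn (fun t => Jw ω t - Xw ω N t) (Ioc 2 T) :=
    ⟨(hJm.sub (e1 N).measurable).aestronglyMeasurable, b1'.trans_lt ENNReal.ofReal_lt_top⟩
  have i1 : IntervalIntegrable (fun t => |Jw ω t - Xw ω N t|) volume 2 T :=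
    ((intervalIntegrable_iff_integrableOn_Ioc_of_le hT2).2 i1').abs
  have b1'' : ∫ t in (2:ℝ)..T, |Jw ω t - Xw ω N t| ≤ ε / (8 * (L + 1)) * T := by
    rw [intervalIntegral.integral_of_le hT2]
    have := ofReal_integral_norm_eq_lintegral_enorm i1'
    rw [← this] at b1'
    exact (ENNReal.ofReal_le_ofReal_iff (by positivity)).1 b1'
  set Q : ℝ := 2 * Real.exp (-((c - 1) * K)) with hQ
  have hQ0 : 0 ≤ Q := by positivity
  set Rf : ℝ → ℝ := fun t => Q * (Real.exp (c * Jw ω t) + Real.exp (c * Xw ω N t)) + L * |Jw ω t - Xw ω N t| with hRf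
  have iR : IntervalIntegrable Rf volume 2 T := ((i2.add i3).const_mul Q).add (i1.const_mul L)
  have hpt : ∀ t, |Real.exp (Jw ω t) - Real.exp (Xw ω N t)| ≤ Rf t := fun t =>
    exp_diff1 hc1 K (Jw ω t) (Xw ω N t)
  have hdiff : |1 / T * (∫ t in (2:ℝ)..T, Real.exp (Jw ω t)) - 1 / T * ∫ t in (2:ℝ)..T, Real.exp (Xw ω N t)| ≤
      ε / 4 := by
    rw [← mul_sub, ← intervalIntegral.integral_sub iJ iX, abs_mul, abs_of_pos (by positivity : 0 < 1 / T)]
    have h5 : |∫ t in (2:ℝ)..T, (Real.exp (Jw ω t) - Real.exp (Xw ω N t))| ≤ ∫ t in (2:ℝ)..T, Rf t := by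
      refine (intervalIntegral.abs_integral_le_integral_abs hT2).trans ?_
      exact intervalIntegral.integral_mono_on hT2 (iJ.sub iX).abs iR fun t _ => hpt t
    have h6 : ∫ t in (2:ℝ)..T, Rf t = Q * ((∫ t in (2:ℝ)..T, Real.exp (c * Jw ω t)) +
        ∫ t in (2:ℝ)..T, Real.exp (c * Xw ω N t)) + L * ∫ t in (2:ℝ)..T, |Jw ω t - Xw ω N t| := by
      simp only [hRf]
      rw [intervalIntegral.integral_add ((i2.add i3).const_mul Q) (i1.const_mul L),
        intervalIntegral.integral_const_mul, intervalIntegral.integral_const_mul,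
        intervalIntegral.integral_add i2 i3]
    have h7 : L * (ε / (8 * (L + 1))) ≤ ε / 8 := by
      rw [mul_div_assoc', div_le_div_iff₀ (by positivity) (by norm_num)]
      nlinarith
    have h8 : ∫ t in (2:ℝ)..T, Rf t ≤ ε / 4 * T := by
      rw [h6]
      calc _ ≤ Q * (A * T + B * T) + L * (ε / (8 * (L + 1)) * T) := by gcongr
        _ = (Q * (A + B) + L * (ε / (8 * (L + 1)))) * T := by ring
        _ ≤ (ε / 8 + ε / 8) * T := by gcongr
        _ = _ := by ring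
    calc 1 / T * _ ≤ 1 / T * (ε / 4 * T) := by gcongr; exact h5.trans h8
      _ = ε / 4 := by field_simp
  rw [Real.dist_eq] at hav hprod ⊢
  have h9 := abs_le.1 hdiff
  have h10 := abs_lt.1 hav
  have h11 := abs_lt.1 hprod
  rw [abs_lt]
  constructor <;> linarith [h9.1, h9.2, h10.1, h10.2, h11.1, h11.2]

lemma exp_min_lip (K x y : ℝ) : Real.exp (min x K) - Real.exp (min y K) ≤ Real.exp K * |x - y| := by
  have h3 := exp_lip (1 : ℂ) (by simp) (K := K) (x := min y K) (y := min x K) (min_le_right _ _) (min_le_right _ _)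
  rw [Complex.one_re, norm_one, one_mul, one_mul, one_mul, one_mul, ← Complex.ofReal_exp, ← Complex.ofReal_exp,
    ← Complex.ofReal_sub, Complex.norm_real, Real.norm_eq_abs] at h3
  have h4 : |min x K - min y K| ≤ |x - y| := by
    have := abs_min_sub_min_le_max x K y K
    rw [sub_self, abs_zero, max_eq_left (abs_nonneg _)] at this
    exact this
  calc _ ≤ |Real.exp (min x K) - Real.exp (min y K)| := le_abs_self _
    _ ≤ Real.exp K * |min x K - min y K| := h3
    _ ≤ _ := by gcongr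

lemma exp_min_cut (K x : ℝ) : Real.exp x - Real.exp (min x K) ≤ Real.exp (-K) * Real.exp (2 * x) := by
  rcases le_total x K with h | h
  · rw [min_eq_left h, sub_self]; positivity
  · rw [min_eq_right h, ← Real.exp_add]
    have h1 : Real.exp x ≤ Real.exp (-K + 2 * x) := Real.exp_le_exp.2 (by linarith)
    have h2 := Real.exp_pos K
    linarith

/-- **the lower bound**, for all weights -/
theorem lower_w (hclo : S_clo) (heul : S_eul) (hup : S_up) (h : Wt ω W R) {ε : ℝ} (hε : 0 < ε) :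
    ∀ᶠ T : ℝ in atTop, Cw ω - ε ≤ 1 / T * ∫ t in (2:ℝ)..T, Real.exp (Jw ω t) := by
  obtain ⟨B, hB, hX⟩ := exp_Xw heul h (c := 2) (by norm_num)
  obtain ⟨e1, e2, e3, e4, e5⟩ := heul _ _ _ h
  obtain ⟨hJm, _, _⟩ := hup ω W R h
  have hcut : Tendsto (fun K : ℝ => Real.exp (-K) * B) atTop (𝓝 (0 * B)) :=
    Real.tendsto_exp_neg_atTop_nhds_zero.mul_const _
  rw [zero_mul] at hcut
  obtain ⟨K, hK⟩ := (hcut.eventually (gt_mem_nhds (show (0:ℝ) < ε / 8 by positivity))).exists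
  set L : ℝ := Real.exp K with hL
  have hL0 : 0 ≤ L := (Real.exp_pos _).le
  obtain ⟨N₁, hN₁⟩ := t_dif hclo ω W R h (ε / (8 * (L + 1))) (by positivity)
  rw [Metric.tendsto_atTop] at e5
  obtain ⟨N₂, hN₂⟩ := e5 (ε / 4) (by positivity)
  set N := max N₁ N₂ with hN
  obtain ⟨T₁, hT₁, hcl⟩ := hN₁ N (le_max_left _ _)
  have hprod := hN₂ N (le_max_right _ _)
  obtain ⟨T₂, hT₂, hXN⟩ := hX N
  have hcont : Continuous (fun t => Real.exp (Xw ω N t)) := Real.continuous_exp.comp (e1 N)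
  set D : ℝ := ∫ t in (1:ℝ)..2, Real.exp (Xw ω N t) with hD
  have h2 : Tendsto (fun T : ℝ => 1 / T * ∫ t in (2:ℝ)..T, Real.exp (Xw ω N t)) atTop
      (𝓝 (∏ p ∈ pr N, facw ω p)) := by
    have a1 : Tendsto (fun T : ℝ => T⁻¹ * D) atTop (𝓝 (0 * D)) := tendsto_inv_atTop_zero.mul_const D
    rw [zero_mul] at a1
    have a2 := (e3 N).sub a1
    rw [sub_zero] at a2
    refine a2.congr fun T => ?_
    have h5 : ∫ t in (1:ℝ)..T, Real.exp (Xw ω N t) = D + ∫ t in (2:ℝ)..T, Real.exp (Xw ω N t) :=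
      (intervalIntegral.integral_add_adjacent_intervals (hcont.intervalIntegrable _ _)
        (hcont.intervalIntegrable _ _)).symm
    rw [h5]
    ring
  rw [Metric.tendsto_nhds] at h2
  have h3 := h2 (ε / 4) (by positivity)
  filter_upwards [h3, eventually_ge_atTop T₁, eventually_ge_atTop T₂] with T hav hTT₁ hTT₂
  have hT2 : 2 ≤ T := hT₁.trans hTT₁
  have hT0 : 0 < T := by linarith
  have b1 := hcl T hTT₁
  have b3 := hXN T hTT₂
  have iJ : IntervalIntegrable (fun t => Real.exp (Jw ω t)) volume 2 T := by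
    have := expJ_ii hup h zero_le_one hT2
    simpa only [one_mul] using this
  have hXc : Continuous (fun t => Real.exp (2 * Xw ω N t)) :=
    Real.continuous_exp.comp (continuous_const.mul (e1 N))
  have i3 : IntervalIntegrable (fun t => Real.exp (2 * Xw ω N t)) volume 2 T := hXc.intervalIntegrable _ _
  have iX : IntervalIntegrable (fun t => Real.exp (Xw ω N t)) volume 2 T := hcont.intervalIntegrable _ _
  have b1' : ∫⁻ t in Ioc 2 T, ‖Jw ω t - Xw ω N t‖ₑ ≤ ENNReal.ofReal (ε / (8 * (L + 1)) * T) :=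
    (lintegral_mono_set Ioc_subset_Icc_self).trans b1
  have i1' : IntegrableOn (fun t => Jw ω t - Xw ω N t) (Ioc 2 T) :=
    ⟨(hJm.sub (e1 N).measurable).aestronglyMeasurable, b1'.trans_lt ENNReal.ofReal_lt_top⟩
  have i1 : IntervalIntegrable (fun t => |Jw ω t - Xw ω N t|) volume 2 T :=
    ((intervalIntegrable_iff_integrableOn_Ioc_of_le hT2).2 i1').abs
  have b1'' : ∫ t in (2:ℝ)..T, |Jw ω t - Xw ω N t| ≤ ε / (8 * (L + 1)) * T := by
    rw [intervalIntegral.integral_of_le hT2]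
    have := ofReal_integral_norm_eq_lintegral_enorm i1'
    rw [← this] at b1'
    exact (ENNReal.ofReal_le_ofReal_iff (by positivity)).1 b1'
  have hpt : ∀ t, Real.exp (Xw ω N t) - Real.exp (Jw ω t) ≤
      Real.exp (-K) * Real.exp (2 * Xw ω N t) + L * |Jw ω t - Xw ω N t| := by
    intro t
    have a1 := exp_min_cut K (Xw ω N t)
    have a2 := exp_min_lip K (Xw ω N t) (Jw ω t)
    rw [abs_sub_comm] at a2
    have a3 : Real.exp (min (Jw ω t) K) ≤ Real.exp (Jw ω t) := Real.exp_le_exp.2 (min_le_left _ _)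
    linarith
  have hint : (∫ t in (2:ℝ)..T, Real.exp (Xw ω N t)) - ∫ t in (2:ℝ)..T, Real.exp (Jw ω t) ≤ ε / 4 * T := by
    rw [← intervalIntegral.integral_sub iX iJ]
    have h5 := intervalIntegral.integral_mono_on hT2 (iX.sub iJ)
      ((i3.const_mul (Real.exp (-K))).add (i1.const_mul L)) fun t _ => hpt t
    rw [intervalIntegral.integral_add (i3.const_mul _) (i1.const_mul L),
      intervalIntegral.integral_const_mul, intervalIntegral.integral_const_mul] at h5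
    have h7 : L * (ε / (8 * (L + 1))) ≤ ε / 8 := by
      rw [mul_div_assoc', div_le_div_iff₀ (by positivity) (by norm_num)]
      nlinarith
    calc _ ≤ _ := h5
      _ ≤ Real.exp (-K) * (B * T) + L * (ε / (8 * (L + 1)) * T) := by gcongr
      _ = (Real.exp (-K) * B + L * (ε / (8 * (L + 1)))) * T := by ring
      _ ≤ (ε / 8 + ε / 8) * T := by gcongr
      _ = _ := by ring
  have hfin : 1 / T * (∫ t in (2:ℝ)..T, Real.exp (Xw ω N t)) - 1 / T * ∫ t in (2:ℝ)..T, Real.exp (Jw ω t) ≤ ε / 4 := by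
    rw [← mul_sub]
    calc _ ≤ 1 / T * (ε / 4 * T) := by gcongr
      _ = ε / 4 := by field_simp
  rw [Real.dist_eq] at hav hprod
  have h10 := abs_lt.1 hav
  have h11 := abs_lt.1 hprod
  linarith [h10.1, h10.2, h11.1, h11.2]


end

end Pool.Agent.Y757.GM
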