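import Pool.Agent.Y757.GM.Main

set_option autoImplicit false

/-! Horizontal segments. -/

namespace Pool.Agent.Y757.GM

open MeasureTheory Set Filter Topology Pool.Agent.Y757.LS Pool.Agent.Y757.EM Real ZU
open scoped ENNReal

noncomputable section

/-- the weight of the geometric means over a horizontal segment -/
def seg (c h : ℝ) : Measure (ℝ × ℝ) :=
  ENNReal.ofReal (c / h) • (volume.restrict (Ioc 0 h)).map (fun x : ℝ => (x, (0:ℝ)))

lemma seg_int {c h : ℝ} (hc : 0 ≤ c) (hh : 0 < h) (f : ℝ × ℝ → ℝ) :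
    ∫ q, f q ∂(seg c h) = c / h * ∫ x in (0:ℝ)..h, f (x, 0) := by
  unfold seg
  rw [smul_int _ (by positivity), intervalIntegral.integral_of_le hh.le]
  congr 1
  exact (measurableEmbedding_prod_mk_right (0:ℝ)).integral_map f

lemma seg_wt {c h : ℝ} (hc : 0 ≤ c) (hh : 0 < h) : Wt (seg c h) (c / h) h := by
  have hm : Measurable (fun x : ℝ => (x, (0:ℝ))) := by fun_prop
  refine ⟨by positivity, hh.le, ?_, ?_⟩
  · unfold seg
    refine Measure.ae_smul_measure ?_ _
    refine (measurableEmbedding_prod_mk_right (0:ℝ)).ae_map_iff.2 ?_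
    filter_upwards [ae_restrict_mem measurableSet_Ioc] with x hx
    exact ⟨hx.1, hx.2, by simp⟩
  · unfold seg
    rw [Measure.map_smul, Measure.map_map measurable_fst hm]
    have e : (Prod.fst ∘ fun x : ℝ => (x, (0:ℝ))) = id := rfl
    rw [e, Measure.map_id]
    intro s
    rw [Measure.smul_apply, Measure.smul_apply]
    simp only [smul_eq_mul]
    gcongr
    exact Measure.restrict_le_self

lemma seg_Jw {c h : ℝ} (hc : 0 ≤ c) (hh : 0 < h) (t : ℝ) :
    Jw (seg c h) t = c / h * ∫ s in (0:ℝ)..h, lz s t := by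
  unfold Jw
  rw [seg_int hc hh]
  simp

lemma seg_Lw {c h : ℝ} (hc : 0 ≤ c) (hh : 0 < h) (p : ℕ) (θ : ℝ) :
    Lw (seg c h) p θ = c / h * ∫ s in (0:ℝ)..h, ps p s θ := by
  unfold Lw
  rw [seg_int hc hh]
  simp

lemma lin_int (h : ℝ) : ∫ x in (0:ℝ)..h, (1 - 2 * x) = h - h ^ 2 := by
  have h1 : ∀ x ∈ uIcc 0 h, HasDerivAt (fun x : ℝ => x - x ^ 2) (1 - 2 * x) x := by
    intro x _
    have h2 : HasDerivAt (fun x : ℝ => x ^ 2) (2 * x) x := by simpa using hasDerivAt_pow 2 x
    exact (hasDerivAt_id' x).sub h2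
  rw [intervalIntegral.integral_eq_sub_of_hasDerivAt h1
    ((by fun_prop : Continuous fun x : ℝ => 1 - 2 * x).intervalIntegrable _ _)]
  ring

lemma seg_kap_le {c h : ℝ} (hc : 0 ≤ c) (hh : 0 < h) : kap (seg c h) ≤ c / (4 * h) := by
  unfold kap
  rw [seg_int hc hh]
  have hcont : Continuous (fun x : ℝ => max 0 (1 - 2 * x)) := by fun_prop
  have h1 : ∫ x in (0:ℝ)..h, max 0 (1 - 2 * x) ≤ 1 / 4 := by
    have h2 : ∫ x in (0:ℝ)..h, max 0 (1 - 2 * x) ≤ ∫ x in (0:ℝ)..(max h (1 / 2)), max 0 (1 - 2 * x) := by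
      refine intervalIntegral.integral_mono_interval le_rfl hh.le (le_max_left _ _)
        (Eventually.of_forall fun x => le_max_left _ _) (hcont.intervalIntegrable _ _)
    have h3 : ∫ x in (0:ℝ)..(max h (1 / 2)), max 0 (1 - 2 * x) =
        (∫ x in (0:ℝ)..(1 / 2), max 0 (1 - 2 * x)) + ∫ x in (1 / 2 : ℝ)..(max h (1 / 2)), max 0 (1 - 2 * x) :=
      (intervalIntegral.integral_add_adjacent_intervals (hcont.intervalIntegrable _ _)
        (hcont.intervalIntegrable _ _)).symm
    have h4 : ∫ x in (1 / 2 : ℝ)..(max h (1 / 2)), max 0 (1 - 2 * x) = 0 := by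
      rw [intervalIntegral.integral_congr (g := fun _ => (0:ℝ))]
      · simp
      · intro x hx
        rw [uIcc_of_le (le_max_right _ _)] at hx
        exact max_eq_left (by linarith [hx.1])
    have h5 : ∫ x in (0:ℝ)..(1 / 2), max 0 (1 - 2 * x) = 1 / 4 := by
      rw [intervalIntegral.integral_congr (g := fun x => 1 - 2 * x)]
      · rw [lin_int]
        norm_num
      · intro x hx
        rw [uIcc_of_le (by norm_num)] at hx
        exact max_eq_right (by linarith [hx.2])
    linarith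
  simp only
  calc c / h * _ ≤ c / h * (1 / 4) := by gcongr
    _ = _ := by field_simp

lemma seg_kap {c h : ℝ} (hc : 0 ≤ c) (hh : 0 < h) (hh1 : h ≤ 1 / 2) : kap (seg c h) = c * (1 - h) := by
  unfold kap
  rw [seg_int hc hh]
  have h5 : ∫ x in (0:ℝ)..h, max 0 (1 - 2 * x) = h - h ^ 2 := by
    rw [intervalIntegral.integral_congr (g := fun x => 1 - 2 * x)]
    · exact lin_int h
    · intro x hx
      rw [uIcc_of_le hh.le] at hx
      exact max_eq_right (by linarith [hx.2])
  simp only
  rw [h5]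
  field_simp

/-- the mass bounds `κ` -/
lemma kap_le_mass {ω : Measure (ℝ × ℝ)} {W R : ℝ} (h : Wt ω W R) : kap ω ≤ (ω univ).toReal := by
  have := h.fin
  unfold kap
  have hi : Integrable (fun q : ℝ × ℝ => max 0 (1 - 2 * q.1)) ω := by
    refine Integrable.mono' (g := fun _ => (1:ℝ)) (integrable_const _) (by fun_prop) ?_
    filter_upwards [h.supp] with q hq
    rw [Real.norm_of_nonneg (le_max_left _ _)]
    exact max_le (by norm_num) (by linarith [hq.1])
  calc _ ≤ ∫ q, (1:ℝ) ∂ω := by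
        refine integral_mono_ae hi (integrable_const _) ?_
        filter_upwards [h.supp] with q hq
        exact max_le (by norm_num) (by linarith [hq.1])
    _ = _ := by
        rw [integral_const, smul_eq_mul, mul_one]
        rfl


end

end Pool.Agent.Y757.GM
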