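import Pool.Agent.Y757.GM.Stm

set_option autoImplicit false

/-! Bounded exponential moments of the weighted means of `log⁺ |GG|`. -/

namespace Pool.Agent.Y757.GM

open MeasureTheory Set Filter Topology Pool.Agent.Y757.LS Pool.Agent.Y757.EM Real ZU
open scoped ENNReal

noncomputable section

variable {ω : Measure (ℝ × ℝ)} {W R : ℝ}

lemma Wt.fin (h : Wt ω W R) : IsFiniteMeasure ω := by
  refine ⟨?_⟩
  have h1 : ω univ ≤ (ω.map Prod.fst) (Ioc 0 R) := by
    rw [Measure.map_apply measurable_fst measurableSet_Ioc]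
    exact measure_mono_ae (h.supp.mono fun q hq _ => ⟨hq.1, hq.2.1⟩)
  refine h1.trans_lt ((h.dens _).trans_lt ?_)
  rw [Measure.smul_apply, Real.volume_Ioc, smul_eq_mul]
  exact ENNReal.mul_lt_top ENNReal.ofReal_lt_top ENNReal.ofReal_lt_top

/-- integrals of functions of the first coordinate -/
lemma Wt.lint (h : Wt ω W R) {f : ℝ → ℝ≥0∞} (hf : Measurable f) {s : Set ℝ} (hs : MeasurableSet s) :
    ∫⁻ q in Prod.fst ⁻¹' s, f q.1 ∂ω ≤ ENNReal.ofReal W * ∫⁻ x in s, f x := by
  have h1 : ∫⁻ q in Prod.fst ⁻¹' s, f q.1 ∂ω = ∫⁻ x in s, f x ∂(ω.map Prod.fst) := by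
    rw [setLIntegral_map hs hf measurable_fst]
  rw [h1]
  calc _ ≤ ∫⁻ x in s, f x ∂(ENNReal.ofReal W • (volume : Measure ℝ)) :=
        lintegral_mono' (Measure.restrict_mono le_rfl h.dens) le_rfl
    _ = _ := by rw [Measure.restrict_smul, lintegral_smul_measure, smul_eq_mul]

lemma vv_intw (h : Wt ω W R) (t : ℝ) : Integrable (fun q : ℝ × ℝ => vv q.1 (t + q.2)) ω := by
  have := h.fin
  obtain ⟨C1, hC1, h1⟩ := vv_upper
  obtain ⟨C2, hC2, h2⟩ := vv_right (η := 1/2) (by norm_num)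
  refine Integrable.mono' (g := fun _ => C1 + 4 * Real.log (2 + |t|) + C2) (integrable_const _)
    (vv_meas_comp measurable_fst (measurable_const.add measurable_snd)).aestronglyMeasurable ?_
  filter_upwards [h.supp] with q hq
  rw [Real.norm_of_nonneg (vv_nonneg _ _)]
  have hl : 0 ≤ Real.log (2+|t|) := Real.log_nonneg (by have := abs_nonneg t; linarith)
  rcases le_total q.1 10 with h3 | h3
  · have := h1 q.1 (t+q.2) (by linarith [hq.1]) h3
    have h4 : Real.log (1 + |t+q.2|) ≤ Real.log (2+|t|) := Real.log_le_log (by positivity) (by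
      have := abs_add_le t q.2; linarith [hq.2.2])
    linarith
  · have := h2 q.1 (t+q.2) (by linarith)
    linarith

/-- Jensen and Tonelli -/
lemma jen_gen {ρ : Measure (ℝ × ℝ)} {m c C : ℝ} (hm : 0 ≤ m)
    (hρ : ρ univ = ENNReal.ofReal m) (hc : 0 < c) (hC : 0 ≤ C) {X : ℝ → ℝ}
    (hX : ∀ t, ENNReal.ofReal (X t) ≤ ∫⁻ q, ENNReal.ofReal (vv q.1 (t + q.2)) ∂ρ + ENNReal.ofReal C)
    {G : ℝ × ℝ → ℝ≥0∞}
    (hG : ∀ᵐ q ∂ρ, ∀ T : ℝ, 0 ≤ T → ∫⁻ t in Icc (-T) T, ENNReal.ofReal (Real.exp (c * m * vv q.1 (t + q.2))) ≤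
      G q * ENNReal.ofReal (1 + T)) (hGf : ∫⁻ q, G q ∂ρ ≠ ⊤) :
    ∃ A : ℝ, 0 ≤ A ∧ PB 0 (fun t => ENNReal.ofReal (Real.exp (c * X t))) A 1 := by
  have : IsFiniteMeasure ρ := ⟨by rw [hρ]; exact ENNReal.ofReal_lt_top⟩
  rcases hm.eq_or_lt with h0 | h0
  · have hρ0 : ρ = 0 := by
      rw [← Measure.measure_univ_eq_zero, hρ, ← h0, ENNReal.ofReal_zero]
    refine ⟨2 * Real.exp (c * C), by positivity, PB.mono (PB_const le_rfl (c := Real.exp (c * C)) (Real.exp_pos _).le le_rfl)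
      fun t => ?_⟩
    have h1 := hX t
    rw [hρ0, lintegral_zero_measure, zero_add] at h1
    have h2 : X t ≤ C := by
      have := (ENNReal.ofReal_le_ofReal_iff hC).1 h1
      exact this
    apply ENNReal.ofReal_le_ofReal
    apply Real.exp_le_exp.2
    gcongr
  · set E : ℝ := Real.exp (c * C) / m with hE
    have hE0 : 0 ≤ E := by positivity
    have hmeas : Measurable (fun p : ℝ × (ℝ × ℝ) => ENNReal.ofReal (Real.exp (c * m * vv p.2.1 (p.1 + p.2.2)))) := by
      have h1 : Measurable (fun p : ℝ × (ℝ × ℝ) => vv p.2.1 (p.1 + p.2.2)) :=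
        vv_meas_comp (measurable_snd.fst) (measurable_fst.add measurable_snd.snd)
      exact (Real.measurable_exp.comp (h1.const_mul (c * m))).ennreal_ofReal
    have hjen : ∀ t : ℝ, ENNReal.ofReal (Real.exp (c * X t)) ≤
        ENNReal.ofReal E * ∫⁻ q, ENNReal.ofReal (Real.exp (c * m * vv q.1 (t + q.2))) ∂ρ := fun t =>
      jensen h0 hρ (vv_meas_comp measurable_fst (measurable_const.add measurable_snd)) (fun x => vv_nonneg _ _) hc hC (hX t)
    refine ⟨E * (∫⁻ q, G q ∂ρ).toReal, by positivity, fun T hT => ?_⟩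
    calc ∫⁻ t in Icc (-T) T, ENNReal.ofReal (Real.exp (c * X t))
        ≤ ∫⁻ t in Icc (-T) T, ENNReal.ofReal E * ∫⁻ q, ENNReal.ofReal (Real.exp (c * m * vv q.1 (t + q.2))) ∂ρ :=
          lintegral_mono hjen
      _ = ENNReal.ofReal E * ∫⁻ q, (∫⁻ t in Icc (-T) T, ENNReal.ofReal (Real.exp (c * m * vv q.1 (t + q.2)))) ∂ρ := by
          rw [lintegral_const_mul' _ _ ENNReal.ofReal_ne_top]
          congr 1
          rw [lintegral_lintegral_swap]
          exact hmeas.aemeasurable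
      _ ≤ ENNReal.ofReal E * ∫⁻ q, G q * ENNReal.ofReal (1 + T) ∂ρ := by
          refine mul_le_mul' le_rfl (lintegral_mono_ae ?_)
          filter_upwards [hG] with q hq
          exact hq T hT
      _ = ENNReal.ofReal E * ((∫⁻ q, G q ∂ρ) * ENNReal.ofReal (1 + T)) := by
          rw [lintegral_mul_const' _ _ ENNReal.ofReal_ne_top]
      _ = _ := by
          rw [Real.rpow_one, ENNReal.ofReal_mul (by positivity), ENNReal.ofReal_mul hE0, ENNReal.ofReal_toReal hGf,
            mul_assoc]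

/-- first moments near the line -/
lemma line_bd : ∃ D : ℝ, 0 ≤ D ∧ ∀ s : ℝ, 0 < s → s ≤ 2 / 5 → ∀ T : ℝ, 0 ≤ T →
    ∫⁻ t in Icc (-T) T, ENNReal.ofReal (1 + ‖GG (pt s t)‖) ≤
      ENNReal.ofReal (D * (1 + T) * s ^ (-(1/2) : ℝ)) := by
  obtain ⟨C, hC, h2⟩ := second
  set D : ℝ := 2 + (2 + C) / 2 with hD
  have hD0 : 0 ≤ D := by positivity
  refine ⟨D, hD0, fun s hs0 hs2 T hT => ?_⟩
  have h4 := h2 s hs0 hs2 T hT
  have hs1 : s ≤ 1 := by linarith
  set r : ℝ := s ^ (-(1/2) : ℝ) with hr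
  have hr0 : 0 < r := by positivity
  have hr1 : 1 ≤ r := Real.one_le_rpow_of_pos_of_le_one_of_nonpos hs0 hs1 (by norm_num)
  have hrs : r * (r * s) = 1 := by
    have : r * r = s⁻¹ := by
      rw [hr, ← Real.rpow_add hs0, ← Real.rpow_neg_one]; norm_num
    rw [← mul_assoc, this, inv_mul_cancel₀ hs0.ne']
  calc ∫⁻ t in Icc (-T) T, ENNReal.ofReal (1 + ‖GG (pt s t)‖)
      ≤ ∫⁻ t in Icc (-T) T, (ENNReal.ofReal (1 + r / 2) + ENNReal.ofReal (r * s / 2) * uS GG s t) := by
        refine lintegral_mono fun t => ?_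
        unfold uS
        rw [← ENNReal.ofReal_mul (by positivity), ← ENNReal.ofReal_add (by positivity) (by positivity)]
        apply ENNReal.ofReal_le_ofReal
        set x := ‖GG (pt s t)‖ with hx
        have h5 : 0 ≤ (r * s) * (x - r) ^ 2 := by positivity
        have h6 : (r * s) * (x - r) ^ 2 = r * s * x ^ 2 - 2 * (r * (r * s)) * x + r * (r * (r * s)) := by
          ring
        rw [h6, hrs] at h5
        linarith
    _ = ENNReal.ofReal (1 + r / 2) * ENNReal.ofReal (T - -T) +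
          ENNReal.ofReal (r * s / 2) * ∫⁻ t in Icc (-T) T, uS GG s t := by
        rw [lintegral_add_left measurable_const, setLIntegral_const, Real.volume_Icc,
          lintegral_const_mul' _ _ ENNReal.ofReal_ne_top]
    _ ≤ ENNReal.ofReal (1 + r / 2) * ENNReal.ofReal (T - -T) +
          ENNReal.ofReal (r * s / 2) * ENNReal.ofReal (C / s * (1 + T) ^ (1:ℝ)) := by gcongr
    _ ≤ _ := by
        rw [← ENNReal.ofReal_mul (by positivity), ← ENNReal.ofReal_mul (by positivity),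
          ← ENNReal.ofReal_add (by
            have : 0 ≤ T - -T := by linarith
            positivity) (by positivity)]
        apply ENNReal.ofReal_le_ofReal
        rw [Real.rpow_one]
        have e : r * s / 2 * (C / s * (1 + T)) = r * C / 2 * (1 + T) := by field_simp
        rw [e, hD]
        nlinarith [mul_nonneg hC.le hT, mul_nonneg (sub_nonneg.2 hr1) hT]

/-- translation of a window -/
lemma shift_bd {f : ℝ → ℝ≥0∞} (hf : Measurable f) (y T : ℝ) :
    ∫⁻ t in Icc (-T) T, f (t + y) ≤ ∫⁻ u in Icc (-(T + |y|)) (T + |y|), f u := by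
  have h1 : ∫⁻ t in Icc (-T) T, f (t + y) = ∫⁻ u in Icc (-T + y) (T + y), f u := by
    have h2 := (measurePreserving_add_right volume y).setLIntegral_comp_preimage
      (s := Icc (-T + y) (T + y)) measurableSet_Icc hf
    have e : (fun x => x + y) ⁻¹' Icc (-T + y) (T + y) = Icc (-T) T := by
      ext x; simp
    rw [e] at h2
    exact h2
  rw [h1]
  refine lintegral_mono_set ?_
  intro x hx
  constructor
  · have := neg_abs_le y; linarith [hx.1]
  · have := le_abs_self y; linarith [hx.2]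

lemma exp_one_le {s t c : ℝ} (hc : c ≤ 1) : Real.exp (c * vv s t) ≤ 1 + ‖GG (pt s t)‖ := by
  unfold vv
  have hx := norm_nonneg (GG (pt s t))
  rcases le_total ‖GG (pt s t)‖ 1 with h | h
  · rw [(Real.posLog_eq_zero_iff _).2 (by rwa [abs_of_nonneg hx]), mul_zero, Real.exp_zero]
    linarith
  · rw [Real.posLog_eq_log (by rwa [abs_of_nonneg hx])]
    have hl := Real.log_nonneg h
    calc Real.exp (c * Real.log ‖GG (pt s t)‖) ≤ Real.exp (Real.log ‖GG (pt s t)‖) := by
          apply Real.exp_le_exp.2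
          nlinarith
      _ = ‖GG (pt s t)‖ := Real.exp_log (by linarith)
      _ ≤ _ := by linarith

lemma GG_line_meas (s : ℝ) : Measurable (fun t : ℝ => ENNReal.ofReal (1 + ‖GG (pt s t)‖)) := by
  have h1 : Measurable (fun t : ℝ => pt s t) := by unfold pt; fun_prop
  exact (((GG_measurable.comp h1).norm).const_add 1).ennreal_ofReal

/-- the near part -/
lemma nearW (h : Wt ω W R) {c : ℝ} (hc : 0 < c) {a : ℝ} (ha : 0 < a) (ha1 : a ≤ 2 / 5)
    (hca : c * (W * a) ≤ 1) :
    ∃ A : ℝ, 0 ≤ A ∧ PB 0 (fun t => ENNReal.ofReal (Real.exp (c *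
      ∫ q in Prod.fst ⁻¹' Iic a, vv q.1 (t + q.2) ∂ω))) A 1 := by
  have hfin := h.fin
  obtain ⟨D, hD, hline⟩ := line_bd
  set S : Set (ℝ × ℝ) := Prod.fst ⁻¹' Iic a with hS
  have hSm : MeasurableSet S := measurable_fst measurableSet_Iic
  set ρ : Measure (ℝ × ℝ) := ω.restrict S with hρ
  have hsupp : ∀ᵐ q ∂ρ, 0 < q.1 ∧ q.1 ≤ a ∧ |q.2| ≤ 1 := by
    filter_upwards [ae_restrict_of_ae h.supp, ae_restrict_mem hSm] with q h1 h2
    exact ⟨h1.1, h2, h1.2.2⟩
  set m : ℝ := (ρ univ).toReal with hm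
  have hm0 : 0 ≤ m := ENNReal.toReal_nonneg
  have hρm : ρ univ = ENNReal.ofReal m := (ENNReal.ofReal_toReal (measure_ne_top _ _)).symm
  have hmW : m ≤ W * a := by
    have h1 : ρ univ ≤ ENNReal.ofReal (W * a) := by
      have h2 := h.lint (f := fun _ => 1) measurable_const (s := Ioc 0 a) measurableSet_Ioc
      rw [setLIntegral_one, setLIntegral_one, Real.volume_Ioc, sub_zero, ← ENNReal.ofReal_mul h.W0] at h2
      refine le_trans ?_ h2
      rw [hρ, Measure.restrict_apply_univ]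
      exact measure_mono_ae (h.supp.mono fun q hq hq2 => ⟨hq.1, hq2⟩)
    exact ENNReal.toReal_le_of_le_ofReal (mul_nonneg h.W0 ha.le) h1
  have hcm : c * m ≤ 1 := (mul_le_mul_of_nonneg_left hmW hc.le).trans hca
  refine jen_gen hm0 hρm hc le_rfl (C := 0) (X := fun t => ∫ q in S, vv q.1 (t + q.2) ∂ω)
    (G := fun q => ENNReal.ofReal (2 * D * q.1 ^ (-(1/2) : ℝ))) ?_ ?_ ?_
  · intro t
    rw [ENNReal.ofReal_zero, add_zero]
    exact ofReal_integral_le fun q => vv_nonneg _ _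
  · filter_upwards [hsupp] with q hq T hT
    have hq2 := abs_nonneg q.2
    calc ∫⁻ t in Icc (-T) T, ENNReal.ofReal (Real.exp (c * m * vv q.1 (t + q.2)))
        ≤ ∫⁻ t in Icc (-T) T, ENNReal.ofReal (1 + ‖GG (pt q.1 (t + q.2))‖) :=
          lintegral_mono fun t => ENNReal.ofReal_le_ofReal (exp_one_le hcm)
      _ ≤ ∫⁻ u in Icc (-(T + |q.2|)) (T + |q.2|), ENNReal.ofReal (1 + ‖GG (pt q.1 u)‖) :=
          shift_bd (GG_line_meas q.1) q.2 T
      _ ≤ _ := hline q.1 hq.1 (hq.2.1.trans ha1) _ (by linarith)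
      _ ≤ _ := by
          have h1 : 0 ≤ q.1 ^ (-(1/2) : ℝ) := Real.rpow_nonneg hq.1.le _
          rw [← ENNReal.ofReal_mul (by positivity)]
          apply ENNReal.ofReal_le_ofReal
          have h2 : 1 + (T + |q.2|) ≤ 2 * (1 + T) := by linarith [hq.2.2]
          calc D * (1 + (T + |q.2|)) * q.1 ^ (-(1/2) : ℝ) ≤ D * (2 * (1 + T)) * q.1 ^ (-(1/2) : ℝ) := by gcongr
            _ = _ := by ring
  · have hfm : Measurable (fun x : ℝ => ENNReal.ofReal (2 * D * x ^ (-(1/2) : ℝ))) := by fun_prop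
    have h1 := h.lint hfm (s := Ioc 0 a) measurableSet_Ioc
    have hi : IntervalIntegrable (fun s : ℝ => s ^ (-(1/2) : ℝ)) volume 0 a :=
      intervalIntegral.intervalIntegrable_rpow' (by norm_num)
    have hi2 : IntegrableOn (fun s : ℝ => s ^ (-(1/2) : ℝ)) (Ioc 0 a) :=
      (intervalIntegrable_iff_integrableOn_Ioc_of_le ha.le).1 hi
    have h2 : ∫⁻ x in Ioc 0 a, ENNReal.ofReal (2 * D * x ^ (-(1/2) : ℝ)) < ⊤ :=
      (hi2.const_mul (2 * D)).lintegral_lt_top
    refine ne_of_lt (lt_of_le_of_lt ?_ (ENNReal.mul_lt_top (ENNReal.ofReal_lt_top (r := W)) h2))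
    refine le_trans ?_ h1
    have h3 : ρ = ω.restrict (Prod.fst ⁻¹' Ioc 0 a) := by
      refine Measure.restrict_congr_set ?_
      filter_upwards [h.supp] with q hq
      apply propext
      constructor
      · intro hq2; exact ⟨hq.1, hq2⟩
      · intro hq2; exact hq2.2
    rw [h3]

/-- the cells -/
def cell (a ℓ : ℝ) (j : ℕ) : Set (ℝ × ℝ) := Prod.fst ⁻¹' Ioc (a + j * ℓ) (a + (j + 1) * ℓ)

lemma cell_meas (a ℓ : ℝ) (j : ℕ) : MeasurableSet (cell a ℓ j) := measurable_fst measurableSet_Ioc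

lemma cells (ω : Measure (ℝ × ℝ)) (f : ℝ × ℝ → ℝ≥0∞) (a : ℝ) {ℓ : ℝ} (hℓ : 0 ≤ ℓ) (Q : ℕ) :
    ∑ j ∈ Finset.range Q, ∫⁻ q in cell a ℓ j, f q ∂ω = ∫⁻ q in Prod.fst ⁻¹' Ioc a (a + Q * ℓ), f q ∂ω := by
  induction Q with
  | zero => simp
  | succ Q ih =>
    rw [Finset.sum_range_succ, ih]
    have e : (Prod.fst ⁻¹' Ioc a (a + (Q + 1 : ℕ) * ℓ) : Set (ℝ × ℝ)) =
        Prod.fst ⁻¹' Ioc a (a + Q * ℓ) ∪ cell a ℓ Q := by
      unfold cell
      rw [← preimage_union, Ioc_union_Ioc_eq_Ioc]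
      · push_cast; rfl
      · have : (0:ℝ) ≤ Q * ℓ := by positivity
        linarith
      · nlinarith
    rw [e, lintegral_union (cell_meas _ _ _) (by
      rw [Set.disjoint_left]
      intro x hx hx2
      exact absurd hx.2 (not_le.2 hx2.1))]

lemma mul_wt_ae {ω : Measure (ℝ × ℝ)} {W R : ℝ} (h : Wt ω W R) (s : Set (ℝ × ℝ)) :
    ∫⁻ q in s, wt q.2 ∂ω ≤ 4 * ω univ := by
  calc ∫⁻ q in s, wt q.2 ∂ω ≤ ∫⁻ q, wt q.2 ∂ω := setLIntegral_le_lintegral _ _
    _ ≤ ∫⁻ q, 4 ∂ω := by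
        refine lintegral_mono_ae ?_
        filter_upwards [h.supp] with q hq
        unfold wt
        have e4 : (4 : ℝ≥0∞) = ENNReal.ofReal 4 := by simp
        rw [e4]
        apply ENNReal.ofReal_le_ofReal
        have := hq.2.2
        have := abs_nonneg q.2
        nlinarith
    _ = _ := by rw [lintegral_const]

/-- the far part -/
lemma farW {k : ℕ} (hk : 1 ≤ k) (hyp : HypK k) (h : Wt ω W R) {a η c : ℝ} (ha : 0 < a) (ha1 : a ≤ 1 / 4)
    (hη : 0 < η) (hη1 : η ≤ 1) (hc : 0 < c) {n : ℕ} (hn : 1 / 2 ^ n ≤ η)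
    (hcM : c * (kap ω + (2 * a + 4 * η) * (ω univ).toReal) ≤ 2 * k) :
    ∃ A : ℝ, 0 ≤ A ∧ PB 0 (fun t => ENNReal.ofReal (Real.exp (c *
      ∫ q in Prod.fst ⁻¹' Ioi a, vv q.1 (t + q.2) ∂ω))) A 1 := by
  have hfin := h.fin
  obtain ⟨A0, hA0, hmom⟩ := mom hk hyp ha
  obtain ⟨C, hC, hright⟩ := vv_right (η := η / 2) (by linarith)
  obtain ⟨K, hK, hgrid⟩ := grid 1
  set H : ℝ := (1 + η) / 2 with hH
  have hH0 : 1 / 2 < H := by rw [hH]; linarith
  have hH1 : H ≤ 1 := by rw [hH]; linarith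
  have h2n : (1:ℝ) ≤ 2 ^ n := one_le_pow₀ (by norm_num)
  set ℓ : ℝ := H / 2 ^ n with hℓ
  have hℓ0 : 0 < ℓ := by positivity
  have hℓH : 2 ^ n * ℓ = H := by rw [hℓ]; field_simp
  have hℓ1 : ℓ ≤ 1 := by
    rw [hℓ, div_le_one (by positivity)]; linarith
  obtain ⟨μ, hμ, hg⟩ := hgrid n ℓ hℓ0 (by rw [hℓH]; exact hH1)
  have hle : ∀ q ∈ Finset.range (2 ^ n), q ≤ 2 ^ n := fun q hq => (Finset.mem_range.1 hq).le
  have hμf : ∀ q ∈ Finset.range (2 ^ n), IsFiniteMeasure (μ q) := fun q hq => (hμ q (hle q hq)).1.finite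
  set S : Set (ℝ × ℝ) := Prod.fst ⁻¹' Ioi a with hS
  have hSm : MeasurableSet S := measurable_fst measurableSet_Ioi
  set g : ℕ → (ℝ × ℝ) × ℝ → ℝ × ℝ := fun j x => (x.1.1 - j * ℓ, x.1.2 + x.2) with hgdef
  have hgm : ∀ j, Measurable (g j) := fun j => by
    simp only [hgdef]
    fun_prop
  set ρ : Measure (ℝ × ℝ) := ∑ j ∈ Finset.range (2 ^ n), ((ω.restrict (cell a ℓ j)).prod (μ j)).map (g j) with hρ
  have hint : ∀ f : ℝ × ℝ → ℝ≥0∞, Measurable f → ∫⁻ q, f q ∂ρ = ∑ j ∈ Finset.range (2 ^ n),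
      ∫⁻ q in cell a ℓ j, (∫⁻ z, f (q.1 - j * ℓ, q.2 + z) ∂(μ j)) ∂ω := by
    intro f hf
    rw [hρ, lintegral_finsetSum_measure]
    refine Finset.sum_congr rfl fun j hj => ?_
    have := hμf j hj
    have hfg : Measurable (fun x => f (g j x)) := hf.comp (hgm j)
    rw [lintegral_map hf (hgm j), lintegral_prod _ hfg.aemeasurable]
  -- the mass
  set φ : ℝ × ℝ → ℝ := fun q => max 0 (1 - 2 * q.1) + (2 * a + 4 * η) with hφ
  have hφ0 : ∀ q, 0 ≤ φ q := fun q => by
    simp only [hφ]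
    have := le_max_left 0 (1 - 2 * q.1)
    positivity
  have hkint : Integrable (fun q : ℝ × ℝ => max 0 (1 - 2 * q.1)) ω := by
    refine Integrable.mono' (g := fun _ => (1:ℝ)) (integrable_const _) (by fun_prop) ?_
    filter_upwards [h.supp] with q hq
    rw [Real.norm_of_nonneg (le_max_left _ _)]
    exact max_le (by norm_num) (by linarith [hq.1])
  have hφint : Integrable φ ω := hkint.add (integrable_const _)
  have hφI : ∫ q, φ q ∂ω = kap ω + (2 * a + 4 * η) * (ω univ).toReal := by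
    simp only [hφ]
    rw [integral_add hkint (integrable_const _), integral_const, smul_eq_mul, mul_comm _ (2 * a + 4 * η)]
    rfl
  have hρm : ρ univ ≤ ENNReal.ofReal (∫ q, φ q ∂ω) := by
    calc ρ univ = ∫⁻ q, 1 ∂ρ := by simp
      _ = ∑ j ∈ Finset.range (2 ^ n), ∫⁻ q in cell a ℓ j, (∫⁻ z, 1 ∂(μ j)) ∂ω := hint _ measurable_const
      _ ≤ ∑ j ∈ Finset.range (2 ^ n), ∫⁻ q in cell a ℓ j, ENNReal.ofReal (φ q) ∂ω := by
          refine Finset.sum_le_sum fun j hj => ?_
          refine setLIntegral_mono' (cell_meas _ _ _) fun q hq => ?_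
          rw [lintegral_one, (hμ j (hle j hj)).1.mass]
          apply ENNReal.ofReal_le_ofReal
          have hq2 : q.1 ≤ a + (j + 1) * ℓ := hq.2
          have hj2 : ((j:ℝ) + 1) ≤ 2 ^ n := by
            have := Finset.mem_range.1 hj
            exact_mod_cast this
          have hjn : (q.1 - a) / H - 1 / 2 ^ n ≤ j / 2 ^ n := by
            rw [sub_le_iff_le_add, ← add_div, div_le_div_iff₀ (by positivity) (by positivity)]
            calc (q.1 - a) * 2 ^ n ≤ ((j + 1) * ℓ) * 2 ^ n := by gcongr; linarith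
              _ = _ := by rw [hℓ]; field_simp
          have hx : q.1 ≤ 3 / 2 := by
            have : ((j:ℝ) + 1) * ℓ ≤ 2 ^ n * ℓ := by gcongr
            rw [hℓH] at this
            linarith
          have hx0 : a < q.1 := lt_of_le_of_lt (by
            have : (0:ℝ) ≤ j * ℓ := by positivity
            linarith) hq.1
          have hd : (q.1 - a) / H ≥ 2 * q.1 - 2 * a - 3 * η := by
            rw [ge_iff_le, le_div_iff₀ (by positivity)]
            rw [hH]
            nlinarith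
          simp only [hφ]
          have := le_max_right 0 (1 - 2 * q.1)
          linarith
      _ = ∫⁻ q in Prod.fst ⁻¹' Ioc a (a + (2 ^ n : ℕ) * ℓ), ENNReal.ofReal (φ q) ∂ω := cells ω _ a hℓ0.le _
      _ ≤ ∫⁻ q, ENNReal.ofReal (φ q) ∂ω := setLIntegral_le_lintegral _ _
      _ = _ := (ofReal_integral_eq_lintegral_ofReal hφint (Eventually.of_forall hφ0)).symm
  have hρfin : ρ univ ≠ ⊤ := ne_of_lt (hρm.trans_lt ENNReal.ofReal_lt_top)
  set M : ℝ := (ρ univ).toReal with hM
  have hM0 : 0 ≤ M := ENNReal.toReal_nonneg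
  have hMM : M ≤ kap ω + (2 * a + 4 * η) * (ω univ).toReal := by
    rw [← hφI]
    exact ENNReal.toReal_le_of_le_ofReal (integral_nonneg hφ0) hρm
  have hcM2 : c * M ≤ 2 * k := (mul_le_mul_of_nonneg_left hMM hc.le).trans hcM
  set m : ℝ := (ω univ).toReal with hm
  have hm0 : 0 ≤ m := ENNReal.toReal_nonneg
  have hωm : ω univ = ENNReal.ofReal m := (ENNReal.ofReal_toReal (measure_ne_top _ _)).symm
  refine jen_gen hM0 (ENNReal.ofReal_toReal hρfin).symm hc (C := (2 ^ n + 1) * (C * m)) (by positivity)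
    (X := fun t => ∫ q in S, vv q.1 (t + q.2) ∂ω)
    (G := fun q => ENNReal.ofReal (2 + A0) * wt q.2) ?_ ?_ ?_
  · intro t
    have hvm : Measurable (fun q : ℝ × ℝ => ENNReal.ofReal (vv q.1 (t + q.2))) :=
      (vv_meas_comp measurable_fst (measurable_const.add measurable_snd)).ennreal_ofReal
    have e : S = Prod.fst ⁻¹' Ioc a (a + H) ∪ Prod.fst ⁻¹' Ioi (a + H) := by
      rw [← preimage_union, Ioc_union_Ioi_eq_Ioi (by linarith)]
    have h1 : ∫⁻ q in S, ENNReal.ofReal (vv q.1 (t + q.2)) ∂ω ≤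
        (∫⁻ q in Prod.fst ⁻¹' Ioc a (a + H), ENNReal.ofReal (vv q.1 (t + q.2)) ∂ω) +
          ∫⁻ q in Prod.fst ⁻¹' Ioi (a + H), ENNReal.ofReal (vv q.1 (t + q.2)) ∂ω := by
      rw [e]
      exact lintegral_union_le _ _ _
    have h2 : ∫⁻ q in Prod.fst ⁻¹' Ioi (a + H), ENNReal.ofReal (vv q.1 (t + q.2)) ∂ω ≤ ENNReal.ofReal (C * m) := by
      calc _ ≤ ∫⁻ q in Prod.fst ⁻¹' Ioi (a + H), ENNReal.ofReal C ∂ω := by
            refine setLIntegral_mono' (measurable_fst measurableSet_Ioi) fun q hq => ?_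
            apply ENNReal.ofReal_le_ofReal
            have : a + H < q.1 := hq
            exact hright _ _ (by rw [hH] at this; linarith)
        _ ≤ ENNReal.ofReal C * ω univ := by
            rw [setLIntegral_const]
            gcongr
            exact subset_univ _
        _ = _ := by rw [hωm, ← ENNReal.ofReal_mul hC]
    have h3 : ∫⁻ q in Prod.fst ⁻¹' Ioc a (a + H), ENNReal.ofReal (vv q.1 (t + q.2)) ∂ω =
        ∑ j ∈ Finset.range (2 ^ n), ∫⁻ q in cell a ℓ j, ENNReal.ofReal (vv q.1 (t + q.2)) ∂ω := by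
      rw [cells ω _ a hℓ0.le]
      push_cast
      rw [hℓH]
    have h4 : ∀ j ∈ Finset.range (2 ^ n), ∫⁻ q in cell a ℓ j, ENNReal.ofReal (vv q.1 (t + q.2)) ∂ω ≤
        ∫⁻ q in cell a ℓ j, (∫⁻ z, ENNReal.ofReal (vv (q.1 - j * ℓ) (t + (q.2 + z))) ∂(μ j)) ∂ω +
          ENNReal.ofReal (C * m) := by
      intro j hj
      have := hμf j hj
      calc _ ≤ ∫⁻ q in cell a ℓ j, ((∫⁻ z, ENNReal.ofReal (vv (q.1 - j * ℓ) (t + (q.2 + z))) ∂(μ j)) +
            ENNReal.ofReal C) ∂ω := by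
            refine setLIntegral_mono' (cell_meas _ _ _) fun q hq => ?_
            have hq1 : a + j * ℓ < q.1 := hq.1
            have hq2 : q.1 ≤ a + (j + 1) * ℓ := hq.2
            have hgr := hg (uL GG) 0 3 (q.1 - j * ℓ) (ENNReal.ofReal C) (sub_log GG_strip) (by linarith)
              (by rw [hℓH]; linarith) (fun t' => by
                rw [hℓH, uL_eq]
                exact ENNReal.ofReal_le_ofReal (hright _ t' (by linarith))) j (hle j hj) (t + q.2)
            rw [sub_add_cancel, uL_eq] at hgr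
            refine hgr.trans (le_of_eq ?_)
            congr 1
            unfold Kop
            refine lintegral_congr fun z => ?_
            rw [uL_eq, add_assoc]
        _ = ∫⁻ q in cell a ℓ j, (∫⁻ z, ENNReal.ofReal (vv (q.1 - j * ℓ) (t + (q.2 + z))) ∂(μ j)) ∂ω +
            ENNReal.ofReal C * ω (cell a ℓ j) := by
            rw [lintegral_add_right _ measurable_const, setLIntegral_const]
        _ ≤ _ := by
            gcongr
            rw [ENNReal.ofReal_mul hC, ← hωm]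
            gcongr
            exact subset_univ _
    have h5 := hint (fun q => ENNReal.ofReal (vv q.1 (t + q.2))) hvm
    calc ENNReal.ofReal (∫ q in S, vv q.1 (t + q.2) ∂ω)
        ≤ ∫⁻ q in S, ENNReal.ofReal (vv q.1 (t + q.2)) ∂ω := ofReal_integral_le fun q => vv_nonneg _ _
      _ ≤ (∑ j ∈ Finset.range (2 ^ n), (∫⁻ q in cell a ℓ j,
            (∫⁻ z, ENNReal.ofReal (vv (q.1 - j * ℓ) (t + (q.2 + z))) ∂(μ j)) ∂ω +
          ENNReal.ofReal (C * m))) + ENNReal.ofReal (C * m) := by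
          refine h1.trans (add_le_add ?_ h2)
          rw [h3]
          exact Finset.sum_le_sum h4
      _ = _ := by
          rw [Finset.sum_add_distrib, ← h5, Finset.sum_const, Finset.card_range, nsmul_eq_mul, add_assoc]
          congr 1
          have : ((2 ^ n : ℕ) : ℝ≥0∞) = ENNReal.ofReal (2 ^ n) := by
            rw [ENNReal.ofReal_pow (by norm_num)]; simp
          rw [this, ← ENNReal.ofReal_mul (by positivity), ← ENNReal.ofReal_add (by positivity) (by positivity)]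
          congr 1
          ring
  · have hae : ∀ᵐ q ∂ρ, q.1 ∈ Ioc a (a + ℓ) := by
      have hPm : MeasurableSet {q : ℝ × ℝ | q.1 ∈ Ioc a (a + ℓ)} := measurable_fst measurableSet_Ioc
      rw [ae_iff]
      have h1 : ∫⁻ q, ({q : ℝ × ℝ | q.1 ∈ Ioc a (a + ℓ)}ᶜ).indicator (fun _ => (1 : ℝ≥0∞)) q ∂ρ = 0 := by
        rw [hint _ (measurable_const.indicator hPm.compl)]
        refine Finset.sum_eq_zero fun j hj => ?_
        refine (setLIntegral_congr_fun (g := fun _ => 0) (cell_meas _ _ _) fun q hq => ?_).trans (by simp)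
        have hq1 : a + j * ℓ < q.1 := hq.1
        have hq2 : q.1 ≤ a + (j + 1) * ℓ := hq.2
        have : ∀ z, ({q : ℝ × ℝ | q.1 ∈ Ioc a (a + ℓ)}ᶜ).indicator (fun _ => (1 : ℝ≥0∞)) (q.1 - j * ℓ, q.2 + z) = 0 := by
          intro z
          rw [indicator_of_notMem]
          intro hmem
          apply hmem
          constructor
          · change a < q.1 - j * ℓ; linarith
          · change q.1 - j * ℓ ≤ a + ℓ; linarith
        simp only [this, lintegral_zero]
      rw [lintegral_indicator hPm.compl, lintegral_one, Measure.restrict_apply_univ] at h1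
      exact h1
    filter_upwards [hae] with q hq T hT
    have hq2 := abs_nonneg q.2
    have h1 := hmom q.1 hq.1.le (by linarith [hq.2])
    have hGm : Measurable (fun t : ℝ => ENNReal.ofReal (1 + ‖GG (pt q.1 t)‖ ^ (2 * k))) := by
      have h1 : Measurable (fun t : ℝ => pt q.1 t) := by unfold pt; fun_prop
      exact ((((GG_measurable.comp h1).norm).pow_const _).const_add 1).ennreal_ofReal
    have hPB : PB 0 (fun t => ENNReal.ofReal (1 + ‖GG (pt q.1 t)‖ ^ (2 * k))) (2 + A0) 1 := by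
      have h2 := (PB_const (T₀ := 0) le_rfl (c := 1) zero_le_one le_rfl).add le_rfl (by norm_num) hA0 h1
        measurable_const
      refine PB.mono (by simpa using h2) fun t => ?_
      rw [ENNReal.ofReal_add zero_le_one (by positivity)]
      simp
    calc ∫⁻ t in Icc (-T) T, ENNReal.ofReal (Real.exp (c * M * vv q.1 (t + q.2)))
        ≤ ∫⁻ t in Icc (-T) T, ENNReal.ofReal (1 + ‖GG (pt q.1 (t + q.2))‖ ^ (2 * k)) :=
          lintegral_mono fun t => ENNReal.ofReal_le_ofReal (exp_pow_le (norm_nonneg _) hcM2)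
      _ ≤ ∫⁻ u in Icc (-(T + |q.2|)) (T + |q.2|), ENNReal.ofReal (1 + ‖GG (pt q.1 u)‖ ^ (2 * k)) :=
          shift_bd hGm q.2 T
      _ ≤ _ := hPB (T + |q.2|) (by linarith)
      _ ≤ _ := by
          unfold wt
          rw [← ENNReal.ofReal_mul (by positivity), ← ENNReal.ofReal_mul (by positivity), Real.rpow_one]
          apply ENNReal.ofReal_le_ofReal
          have h2 : 1 + (T + |q.2|) ≤ (1 + |q.2|) ^ 2 * (1 + T) := by nlinarith [mul_nonneg hT hq2, mul_nonneg hT (sq_nonneg |q.2|)]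
          calc (2 + A0) * (1 + (T + |q.2|)) ≤ (2 + A0) * ((1 + |q.2|) ^ 2 * (1 + T)) := by gcongr
            _ = _ := by ring
  · have hwm : Measurable (fun q : ℝ × ℝ => ENNReal.ofReal (2 + A0) * wt q.2) :=
      (wt_meas.comp measurable_snd).const_mul _
    rw [hint _ hwm]
    refine (ENNReal.sum_lt_top.2 fun j hj => ?_).ne
    have := hμf j hj
    have hmomj := (hμ j (hle j hj)).1.mom
    calc _ ≤ ∫⁻ q in cell a ℓ j, ENNReal.ofReal (2 + A0) * (wt q.2 * ∫⁻ z, wt z ∂(μ j)) ∂ω := by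
          refine lintegral_mono fun q => ?_
          rw [lintegral_const_mul' _ _ ENNReal.ofReal_ne_top, ← lintegral_const_mul _ wt_meas]
          gcongr with z
          exact wt_add _ _
      _ = ENNReal.ofReal (2 + A0) * ((∫⁻ q in cell a ℓ j, wt q.2 ∂ω) * ∫⁻ z, wt z ∂(μ j)) := by
          rw [lintegral_const_mul' _ _ ENNReal.ofReal_ne_top, lintegral_mul_const' _ _ hmomj]
      _ ≤ ENNReal.ofReal (2 + A0) * ((4 * ω univ) * ∫⁻ z, wt z ∂(μ j)) := by
          gcongr
          exact mul_wt_ae h _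
      _ < ⊤ := by
          refine ENNReal.mul_lt_top ENNReal.ofReal_lt_top (ENNReal.mul_lt_top ?_ (lt_top_iff_ne_top.2 hmomj))
          exact ENNReal.mul_lt_top (by simp) (measure_lt_top _ _)


lemma meas_part (ω : Measure (ℝ × ℝ)) [SFinite ω] : Measurable (fun t : ℝ => ∫ q, vv q.1 (t + q.2) ∂ω) := by
  have h2 : StronglyMeasurable (Function.uncurry fun (t : ℝ) (q : ℝ × ℝ) => vv q.1 (t + q.2)) :=
    (vv_meas_comp (measurable_snd.fst) (measurable_fst.add measurable_snd.snd)).stronglyMeasurable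
  exact (h2.integral_prod_right (ν := ω)).measurable

theorem t_U : S_U := by
  intro k hk hyp ω W R h hκ
  have hfin := h.fin
  set m : ℝ := (ω univ).toReal with hm
  have hm0 : 0 ≤ m := ENNReal.toReal_nonneg
  have hκ0 : 0 ≤ kap ω := integral_nonneg fun q => le_max_left _ _
  have hW := h.W0
  set d : ℝ := 2 * k - kap ω with hd
  have hd0 : 0 < d := by rw [hd]; linarith
  set η : ℝ := min 1 (d / (kap ω + 10 * m + 1)) with hη
  have hη0 : 0 < η := lt_min one_pos (by positivity)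
  have hη1 : η ≤ 1 := min_le_left _ _
  have hη2 : η * (kap ω + 10 * m + 1) ≤ d := by
    have := min_le_right 1 (d / (kap ω + 10 * m + 1))
    rwa [← hη, le_div_iff₀ (by positivity)] at this
  have hmain : (1 + η) * (kap ω + 5 * η * m) ≤ 2 * k := by
    have h1 : η * η * m ≤ η * m := by
      have : η * η ≤ η := by nlinarith
      gcongr
    nlinarith
  obtain ⟨n, hn⟩ := exists_pow_lt_of_lt_one hη0 (by norm_num : (1/2 : ℝ) < 1)
  have hn' : 1 / 2 ^ n ≤ η := by
    rw [one_div, ← inv_pow, ← one_div]; exact hn.le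
  set p : ℝ := 1 + η with hp
  set q : ℝ := (1 + η) / η with hq
  have hq0 : 0 < q := by positivity
  have hp0 : 0 < p := by positivity
  set a : ℝ := min (1 / 4) (min (η / 2) (1 / (q * (W + 1)))) with ha
  have ha0 : 0 < a := lt_min (by norm_num) (lt_min (by linarith) (by positivity))
  have ha1 : a ≤ 1 / 4 := min_le_left _ _
  have ha2 : a ≤ η / 2 := (min_le_right _ _).trans (min_le_left _ _)
  have ha3 : a ≤ 1 / (q * (W + 1)) := (min_le_right _ _).trans (min_le_right _ _)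
  have hqW : q * (W * a) ≤ 1 := by
    rw [le_div_iff₀ (by positivity)] at ha3
    nlinarith [mul_nonneg hq0.le ha0.le]
  obtain ⟨A1, hA1, h1⟩ := nearW h hq0 ha0 (by linarith) hqW
  obtain ⟨A2, hA2, h2⟩ := farW hk hyp h ha0 ha1 hη0 hη1 hp0 hn' (by
    calc p * (kap ω + (2 * a + 4 * η) * (ω univ).toReal) ≤ p * (kap ω + 5 * η * m) := by
          rw [← hm]
          have : 2 * a + 4 * η ≤ 5 * η := by linarith
          gcongr
      _ ≤ _ := hmain)
  refine ⟨A1 + A2, by positivity, ?_⟩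
  have hm1 : Measurable (fun t => ENNReal.ofReal (Real.exp (q * ∫ x in Prod.fst ⁻¹' Iic a, vv x.1 (t + x.2) ∂ω))) :=
    (Real.measurable_exp.comp ((meas_part (ω.restrict (Prod.fst ⁻¹' Iic a))).const_mul q)).ennreal_ofReal
  refine PB.mono (h1.add le_rfl hA1 hA2 h2 hm1) fun t => ?_
  rw [← ENNReal.ofReal_add (Real.exp_pos _).le (Real.exp_pos _).le]
  apply ENNReal.ofReal_le_ofReal
  have hsp : (∫ x in Prod.fst ⁻¹' Iic a, vv x.1 (t + x.2) ∂ω) + ∫ x in Prod.fst ⁻¹' Ioi a, vv x.1 (t + x.2) ∂ω =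
      ∫ x, vv x.1 (t + x.2) ∂ω := by
    have h3 := integral_add_compl (μ := ω) (s := Prod.fst ⁻¹' Iic a) (measurable_fst measurableSet_Iic)
      (vv_intw h t)
    rwa [← preimage_compl, compl_Iic] at h3
  set x := ∫ x in Prod.fst ⁻¹' Iic a, vv x.1 (t + x.2) ∂ω with hx
  set y := ∫ x in Prod.fst ⁻¹' Ioi a, vv x.1 (t + x.2) ∂ω with hy
  rw [← hsp]
  have hxy : x + y ≤ max (q * x) (p * y) := by
    have h6 : 1 / q + 1 / p = 1 := by rw [hp, hq]; field_simp; ring
    have h7 : x + y = 1 / q * (q * x) + 1 / p * (p * y) := by field_simp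
    rw [h7]
    have h8 : 0 < 1 / q := by positivity
    have h9 : 0 < 1 / p := by positivity
    calc _ ≤ 1 / q * max (q * x) (p * y) + 1 / p * max (q * x) (p * y) := by
          gcongr
          · exact le_max_left _ _
          · exact le_max_right _ _
      _ = _ := by rw [← add_mul, h6, one_mul]
  refine (Real.exp_le_exp.2 hxy).trans ?_
  rcases le_total (q * x) (p * y) with h | h
  · rw [max_eq_right h]
    have := Real.exp_pos (q * x)
    linarith
  · rw [max_eq_left h]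
    have := Real.exp_pos (p * y)
    linarith


end

end Pool.Agent.Y757.GM
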